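import Mathlib

/-!
# Circles enclosing `n` lattice points: definitions
-/

namespace Pool.Agent.H94.MC

/-- The lattice points in the open interior of the circle with centre `c` and radius `r`. -/
def inside (c : ℝ × ℝ) (r : ℝ) : Set (ℤ × ℤ) :=
  {p | ((p.1 : ℝ) - c.1) ^ 2 + ((p.2 : ℝ) - c.2) ^ 2 < r ^ 2}

/-- `IsEnclosing n c r`: the circle with centre `c` and radius `r > 0` is `n`-enclosing. -/
def IsEnclosing (n : ℕ) (c : ℝ × ℝ) (r : ℝ) : Prop := 0 < r ∧ (inside c r).ncard = n

/-- `n` is MC: the set of radii of `n`-enclosing circles has a greatest element, that is, its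
supremum `R_n` is attained. -/
def MC (n : ℕ) : Prop := ∃ R : ℝ, IsGreatest {r : ℝ | ∃ c : ℝ × ℝ, IsEnclosing n c r} R

end Pool.Agent.H94.MC
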