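import Mathlib
import Pool.Agent.H14.PT.Div

/-!
# Lattice points on circles with centre in `ℤ²`: at most `4 τ(M)²` solutions of `x² + y² = M`
-/

namespace Pool.Agent.H94.MC

open Finset

/-- The only integer solutions of `a² + b² = 4 k²` with `k ∣ a`, `k ∣ b`. -/
lemma four_cases {A B : ℤ} (h : A ^ 2 + B ^ 2 = 4) :
    (A = 2 ∧ B = 0) ∨ (A = -2 ∧ B = 0) ∨ (A = 0 ∧ B = 2) ∨ (A = 0 ∧ B = -2) := by
  have hA : -2 ≤ A ∧ A ≤ 2 := by constructor <;> nlinarith [sq_nonneg B]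
  have hB : -2 ≤ B ∧ B ≤ 2 := by constructor <;> nlinarith [sq_nonneg A]
  obtain ⟨h1, h2⟩ := hA
  obtain ⟨h3, h4⟩ := hB
  interval_cases A <;> interval_cases B <;> simp_all

/-- The fibre step: two primitive representations with the same gcd. -/
lemma fibre_step {M d e x y x0 y0 x' y' : ℤ} (hM : M ≠ 0) (hde : M = d * e)
    (h0 : x0 ^ 2 + y0 ^ 2 = M) (h : x ^ 2 + y ^ 2 = M) (h' : x' ^ 2 + y' ^ 2 = M)
    (c0 : IsCoprime y0 M) (cx : IsCoprime x M) (cy : IsCoprime y M)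
    (hd : d ∣ x * y0 - x0 * y) (hd' : d ∣ x' * y0 - x0 * y')
    (he : e ∣ x * y0 + x0 * y) (he' : e ∣ x' * y0 + x0 * y') :
    ((x * x' + y * y' = M ∧ x * y' - x' * y = 0) ∨ (x * x' + y * y' = -M ∧ x * y' - x' * y = 0) ∨
      (x * x' + y * y' = 0 ∧ x * y' - x' * y = M) ∨
      (x * x' + y * y' = 0 ∧ x * y' - x' * y = -M)) := by
  have dM : d ∣ M := ⟨e, hde⟩
  have eM : e ∣ M := ⟨d, by rw [hde]; ring⟩
  -- d divides x y' - x' y
  have hd2 : d ∣ x * y' - x' * y := by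
    have h1 : d ∣ y0 * (x * y' - x' * y) := by
      have : y0 * (x * y' - x' * y) = (x * y0 - x0 * y) * y' - (x' * y0 - x0 * y') * y := by ring
      rw [this]
      exact dvd_sub (hd.mul_right _) (hd'.mul_right _)
    exact ((c0.of_isCoprime_of_dvd_right dM).symm).dvd_of_dvd_mul_left h1
  have he2 : e ∣ x * y' - x' * y := by
    have h1 : e ∣ y0 * (x * y' - x' * y) := by
      have : y0 * (x * y' - x' * y) = (x * y0 + x0 * y) * y' - (x' * y0 + x0 * y') * y := by ring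
      rw [this]
      exact dvd_sub (he.mul_right _) (he'.mul_right _)
    exact ((c0.of_isCoprime_of_dvd_right eM).symm).dvd_of_dvd_mul_left h1
  -- gcd(d, e) divides 2
  have hg : ((Int.gcd d e : ℕ) : ℤ) ∣ 2 := by
    set g : ℤ := ((Int.gcd d e : ℕ) : ℤ)
    have g1 : g ∣ d := Int.gcd_dvd_left ..
    have g2 : g ∣ e := Int.gcd_dvd_right ..
    have gM : g ∣ M := g1.trans dM
    have h1 : g ∣ x * (y0 * 2) := by
      have : x * (y0 * 2) = (x * y0 - x0 * y) + (x * y0 + x0 * y) := by ring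
      rw [this]
      exact dvd_add (g1.trans hd) (g2.trans he)
    have h2 := ((cx.of_isCoprime_of_dvd_right gM).symm).dvd_of_dvd_mul_left h1
    exact ((c0.of_isCoprime_of_dvd_right gM).symm).dvd_of_dvd_mul_left h2
  -- M divides 2 (x y' - x' y)
  have hM2 : M ∣ 2 * (x * y' - x' * y) := by
    have h1 : ((Int.lcm d e : ℕ) : ℤ) ∣ x * y' - x' * y := Int.coe_lcm_dvd hd2 he2
    have h2 : ((Int.gcd d e : ℕ) : ℤ) * ((Int.lcm d e : ℕ) : ℤ) ∣ 2 * (x * y' - x' * y) :=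
      mul_dvd_mul hg h1
    have h3 : (((Int.gcd d e * Int.lcm d e : ℕ)) : ℤ) = ((d * e).natAbs : ℤ) := by
      rw [Int.gcd_mul_lcm, Int.natAbs_mul]
    have h4 : M ∣ (((Int.gcd d e * Int.lcm d e : ℕ)) : ℤ) := by
      rw [h3, ← hde]
      exact Int.dvd_natAbs.mpr dvd_rfl
    refine h4.trans ?_
    push_cast
    exact h2
  have hM3 : M ∣ 2 * (x * x' + y * y') := by
    have h1 : M ∣ y * (2 * (x * x' + y * y')) := by
      have h2 : y * (2 * (x * x' + y * y')) = (x ^ 2 + y ^ 2) * (2 * y') - x * (2 * (x * y' - x' * y)) := by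
        ring
      rw [h2, h]
      exact dvd_sub (dvd_mul_right _ _) (hM2.mul_left _)
    exact cy.symm.dvd_of_dvd_mul_left h1
  obtain ⟨A, hA⟩ := hM3
  obtain ⟨B, hB⟩ := hM2
  have hAB : A ^ 2 + B ^ 2 = 4 := by
    have h1 : (M * A) ^ 2 + (M * B) ^ 2 = 4 * M ^ 2 := by
      rw [← hA, ← hB]
      have h2 : (2 * (x * x' + y * y')) ^ 2 + (2 * (x * y' - x' * y)) ^ 2
          = 4 * ((x ^ 2 + y ^ 2) * (x' ^ 2 + y' ^ 2)) := by ring
      rw [h2, h, h']
      ring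
    have h3 : M ^ 2 * (A ^ 2 + B ^ 2) = M ^ 2 * 4 := by linarith [h1]
    exact mul_left_cancel₀ (pow_ne_zero 2 hM) h3
  rcases four_cases hAB with ⟨h1, h2⟩ | ⟨h1, h2⟩ | ⟨h1, h2⟩ | ⟨h1, h2⟩ <;> rw [h1] at hA <;>
    rw [h2] at hB
  · left; constructor <;> linarith
  · right; left; constructor <;> linarith
  · right; right; left; constructor <;> linarith
  · right; right; right; constructor <;> linarith

/-- Primitive representations: at most `4 τ(M)`. -/
theorem card_prim_le (M : ℕ) (hM : M ≠ 0) (S : Finset (ℤ × ℤ))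
    (hS : ∀ p ∈ S, p.1 ^ 2 + p.2 ^ 2 = (M : ℤ)) (hc : ∀ p ∈ S, IsCoprime p.1 p.2) :
    S.card ≤ 4 * M.divisors.card := by
  classical
  rcases S.eq_empty_or_nonempty with rfl | ⟨z0, hz0⟩
  · simp
  have hMz : (M : ℤ) ≠ 0 := by exact_mod_cast hM
  have cop : ∀ p ∈ S, IsCoprime p.1 (M : ℤ) ∧ IsCoprime p.2 (M : ℤ) := by
    intro p hp
    have h1 := hc p hp
    rw [← hS p hp]
    constructor
    · have h2 : IsCoprime p.1 (p.2 ^ 2) := h1.pow_right
      have h3 : IsCoprime p.1 (p.2 ^ 2 + p.1 * p.1) := IsCoprime.add_mul_left_right h2 _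
      have h4 : p.1 ^ 2 + p.2 ^ 2 = p.2 ^ 2 + p.1 * p.1 := by ring
      rw [h4]; exact h3
    · have h2 : IsCoprime p.2 (p.1 ^ 2) := h1.symm.pow_right
      have h3 : IsCoprime p.2 (p.1 ^ 2 + p.2 * p.2) := IsCoprime.add_mul_left_right h2 _
      have h4 : p.1 ^ 2 + p.2 ^ 2 = p.1 ^ 2 + p.2 * p.2 := by ring
      rw [h4]; exact h3
  set f : ℤ × ℤ → ℕ := fun p => Int.gcd (p.1 * z0.2 - z0.1 * p.2) M with hf
  have hmaps : ∀ p ∈ S, f p ∈ M.divisors := by
    intro p _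
    rw [Nat.mem_divisors]
    refine ⟨?_, hM⟩
    have := Int.gcd_dvd_right (a := p.1 * z0.2 - z0.1 * p.2) (b := (M : ℤ))
    exact_mod_cast this
  have hfib : ∀ d ∈ M.divisors, (S.filter (fun p => f p = d)).card ≤ 4 := by
    intro d hd
    rcases (S.filter (fun p => f p = d)).eq_empty_or_nonempty with h0 | ⟨z, hz⟩
    · rw [h0]; simp
    rw [mem_filter] at hz
    obtain ⟨hzS, hzd⟩ := hz
    have hdM := Nat.dvd_of_mem_divisors hd
    obtain ⟨e, he⟩ := hdM
    have hdez : (M : ℤ) = (d : ℤ) * (e : ℤ) := by exact_mod_cast he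
    have hd0 : (d : ℤ) ≠ 0 := by
      intro h; rw [h, zero_mul] at hdez; exact hMz hdez
    -- divisibility facts for any member of the fibre
    have facts : ∀ p ∈ S, f p = d → (d : ℤ) ∣ p.1 * z0.2 - z0.1 * p.2 ∧
        (e : ℤ) ∣ p.1 * z0.2 + z0.1 * p.2 := by
      intro p hp hpd
      have h1 : (d : ℤ) ∣ p.1 * z0.2 - z0.1 * p.2 := by
        rw [← hpd]; exact Int.gcd_dvd_left ..
      refine ⟨h1, ?_⟩
      obtain ⟨k, hk⟩ := h1
      have hcop : IsCoprime (k : ℤ) (e : ℤ) := by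
        rw [Int.isCoprime_iff_gcd_eq_one]
        have h2 : Int.gcd (p.1 * z0.2 - z0.1 * p.2) (M : ℤ) = d := hpd
        rw [hk, hdez, Int.gcd_mul_left] at h2
        have h3 : (d : ℤ).natAbs = d := Int.natAbs_natCast d
        rw [h3] at h2
        have hdpos : 0 < d := by
          rcases Nat.eq_zero_or_pos d with h | h
          · exact absurd (by exact_mod_cast h) hd0
          · exact h
        exact Nat.eq_of_mul_eq_mul_left hdpos (by rw [h2]; ring)
      have h2 : (M : ℤ) ∣ (p.1 * z0.2 - z0.1 * p.2) * (p.1 * z0.2 + z0.1 * p.2) := by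
        have h3 : (p.1 * z0.2 - z0.1 * p.2) * (p.1 * z0.2 + z0.1 * p.2)
            = (p.1 ^ 2 + p.2 ^ 2) * z0.2 ^ 2 - (z0.1 ^ 2 + z0.2 ^ 2) * p.2 ^ 2 := by ring
        rw [h3, hS p hp, hS z0 hz0]
        exact dvd_sub (dvd_mul_right _ _) (dvd_mul_right _ _)
      rw [hk, hdez, mul_assoc] at h2
      have h3 : (e : ℤ) ∣ k * (p.1 * z0.2 + z0.1 * p.2) :=
        (mul_dvd_mul_iff_left hd0).mp h2
      exact hcop.symm.dvd_of_dvd_mul_left h3
    obtain ⟨hz1, hz2⟩ := facts z hzS hzd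
    set g : ℤ × ℤ → ℤ × ℤ := fun p => (z.1 * p.1 + z.2 * p.2, z.1 * p.2 - p.1 * z.2) with hg
    set T : Finset (ℤ × ℤ) := {((M : ℤ), 0), (-(M : ℤ), 0), (0, (M : ℤ)), (0, -(M : ℤ))} with hT
    have hTc : T.card ≤ 4 := Finset.card_le_four
    refine le_trans (Finset.card_le_card_of_injOn g ?_ ?_) hTc
    · intro p hp
      rw [mem_coe, mem_filter] at hp
      obtain ⟨hpS, hpd⟩ := hp
      obtain ⟨h1, h2⟩ := facts p hpS hpd
      have := fibre_step hMz hdez (hS z0 hz0) (hS z hzS) (hS p hpS) (cop z0 hz0).2 (cop z hzS).1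
        (cop z hzS).2 hz1 h1 hz2 h2
      simp only [hT, hg, coe_insert, coe_singleton, Set.mem_insert_iff, Set.mem_singleton_iff,
        Prod.mk.injEq]
      exact this
    · intro p _ q _ hpq
      simp only [hg, Prod.mk.injEq] at hpq
      obtain ⟨h1, h2⟩ := hpq
      have hzM := hS z hzS
      have e1 : (M : ℤ) * p.1 = M * q.1 := by
        rw [← hzM]
        have a1 : (z.1 ^ 2 + z.2 ^ 2) * p.1
            = z.1 * (z.1 * p.1 + z.2 * p.2) - z.2 * (z.1 * p.2 - p.1 * z.2) := by ring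
        have a2 : (z.1 ^ 2 + z.2 ^ 2) * q.1
            = z.1 * (z.1 * q.1 + z.2 * q.2) - z.2 * (z.1 * q.2 - q.1 * z.2) := by ring
        rw [a1, a2, h1, h2]
      have e2 : (M : ℤ) * p.2 = M * q.2 := by
        rw [← hzM]
        have a1 : (z.1 ^ 2 + z.2 ^ 2) * p.2
            = z.2 * (z.1 * p.1 + z.2 * p.2) + z.1 * (z.1 * p.2 - p.1 * z.2) := by ring
        have a2 : (z.1 ^ 2 + z.2 ^ 2) * q.2
            = z.2 * (z.1 * q.1 + z.2 * q.2) + z.1 * (z.1 * q.2 - q.1 * z.2) := by ring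
        rw [a1, a2, h1, h2]
      exact Prod.ext (mul_left_cancel₀ hMz e1) (mul_left_cancel₀ hMz e2)
  exact Finset.card_le_mul_card_image_of_maps_to hmaps 4 hfib

/-- All representations: at most `4 τ(M)²`. -/
theorem card_reps_le (M : ℕ) (hM : M ≠ 0) (S : Finset (ℤ × ℤ))
    (hS : ∀ p ∈ S, p.1 ^ 2 + p.2 ^ 2 = (M : ℤ)) :
    S.card ≤ 4 * M.divisors.card ^ 2 := by
  classical
  have hmaps : ∀ p ∈ S, Int.gcd p.1 p.2 ∈ M.divisors := by
    intro p hp
    rw [Nat.mem_divisors]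
    refine ⟨?_, hM⟩
    have h1 : ((Int.gcd p.1 p.2 : ℕ) : ℤ) ∣ (M : ℤ) := by
      rw [← hS p hp]
      exact dvd_add ((Int.gcd_dvd_left ..).pow two_ne_zero) ((Int.gcd_dvd_right ..).pow two_ne_zero)
    exact_mod_cast h1
  have hfib : ∀ g ∈ M.divisors, (S.filter (fun p => Int.gcd p.1 p.2 = g)).card
      ≤ 4 * M.divisors.card := by
    intro g hg
    rcases (S.filter (fun p => Int.gcd p.1 p.2 = g)).eq_empty_or_nonempty with h0 | ⟨z, hz⟩
    · rw [h0]; simp
    rw [mem_filter] at hz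
    obtain ⟨hzS, hzg⟩ := hz
    have hgM := Nat.dvd_of_mem_divisors hg
    have hg0 : g ≠ 0 := by
      rintro rfl; exact hM (Nat.eq_zero_of_zero_dvd hgM)
    have hgz : (g : ℤ) ≠ 0 := by exact_mod_cast hg0
    -- g² ∣ M
    have hg2 : g ^ 2 ∣ M := by
      have h1 : ((g : ℤ)) ^ 2 ∣ (M : ℤ) := by
        rw [← hS z hzS, ← hzg]
        exact dvd_add (pow_dvd_pow_of_dvd (Int.gcd_dvd_left ..) 2)
          (pow_dvd_pow_of_dvd (Int.gcd_dvd_right ..) 2)
      exact_mod_cast h1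
    obtain ⟨M', hM'⟩ := hg2
    have hM'0 : M' ≠ 0 := by rintro rfl; simp at hM'; exact hM hM'
    have hdiv : M'.divisors.card ≤ M.divisors.card :=
      Finset.card_le_card (Nat.divisors_subset_of_dvd hM ⟨g ^ 2, by rw [hM']; ring⟩)
    set φ : ℤ × ℤ → ℤ × ℤ := fun p => (p.1 / g, p.2 / g) with hφ
    have dv : ∀ p ∈ S.filter (fun p => Int.gcd p.1 p.2 = g), (g : ℤ) * (p.1 / g) = p.1 ∧
        (g : ℤ) * (p.2 / g) = p.2 := by
      intro p hp
      rw [mem_filter] at hp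
      constructor
      · exact Int.mul_ediv_cancel' (by rw [← hp.2]; exact Int.gcd_dvd_left ..)
      · exact Int.mul_ediv_cancel' (by rw [← hp.2]; exact Int.gcd_dvd_right ..)
    have hcard : (S.filter (fun p => Int.gcd p.1 p.2 = g)).card
        = ((S.filter (fun p => Int.gcd p.1 p.2 = g)).image φ).card := by
      rw [Finset.card_image_of_injOn]
      intro p hp q hq hpq
      rw [mem_coe] at hp hq
      simp only [hφ, Prod.mk.injEq] at hpq
      obtain ⟨a1, a2⟩ := dv p hp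
      obtain ⟨b1, b2⟩ := dv q hq
      refine Prod.ext ?_ ?_
      · rw [← a1, ← b1, hpq.1]
      · rw [← a2, ← b2, hpq.2]
    rw [hcard]
    refine le_trans (card_prim_le M' hM'0 _ ?_ ?_) (by omega)
    · intro p hp
      rw [mem_image] at hp
      obtain ⟨q, hq, rfl⟩ := hp
      obtain ⟨b1, b2⟩ := dv q hq
      rw [mem_filter] at hq
      have h1 := hS q hq.1
      have h2 : (g : ℤ) ^ 2 * ((q.1 / g) ^ 2 + (q.2 / g) ^ 2) = (g : ℤ) ^ 2 * (M' : ℤ) := by
        have h3 : (g : ℤ) ^ 2 * ((q.1 / g) ^ 2 + (q.2 / g) ^ 2)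
            = ((g : ℤ) * (q.1 / g)) ^ 2 + ((g : ℤ) * (q.2 / g)) ^ 2 := by ring
        rw [h3, b1, b2, h1, hM']
        push_cast
        ring
      exact mul_left_cancel₀ (pow_ne_zero 2 hgz) h2
    · intro p hp
      rw [mem_image] at hp
      obtain ⟨q, hq, rfl⟩ := hp
      obtain ⟨b1, b2⟩ := dv q hq
      rw [mem_filter] at hq
      rw [Int.isCoprime_iff_gcd_eq_one]
      have h1 : Int.gcd ((g : ℤ) * (q.1 / g)) ((g : ℤ) * (q.2 / g)) = g := by rw [b1, b2]; exact hq.2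
      rw [Int.gcd_mul_left, Int.natAbs_natCast] at h1
      exact Nat.eq_of_mul_eq_mul_left (Nat.pos_of_ne_zero hg0) (by rw [h1]; ring)
  have := Finset.card_le_mul_card_image_of_maps_to hmaps (4 * M.divisors.card) hfib
  calc S.card ≤ 4 * M.divisors.card * M.divisors.card := this
    _ = 4 * M.divisors.card ^ 2 := by ring

end Pool.Agent.H94.MC
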