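import Mathlib
import Pool.Agent.H94.MC.Defs
import Pool.Agent.H94.MC.Reps

/-!
# Geometry: records
-/

namespace Pool.Agent.H94.MC

open Set Filter Topology

lemma inside_finite (c : ℝ × ℝ) (r : ℝ) : (inside c r).Finite := by
  have h : (Set.Icc ⌊c.1 - |r|⌋ ⌈c.1 + |r|⌉ ×ˢ Set.Icc ⌊c.2 - |r|⌋ ⌈c.2 + |r|⌉ : Set (ℤ × ℤ)).Finite :=
    (Set.finite_Icc _ _).prod (Set.finite_Icc _ _)
  refine h.subset fun p hp => ?_
  have hp' : ((p.1 : ℝ) - c.1) ^ 2 + ((p.2 : ℝ) - c.2) ^ 2 < r ^ 2 := hp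
  have h1 : ((p.1 : ℝ) - c.1) ^ 2 ≤ r ^ 2 := by nlinarith [sq_nonneg ((p.2 : ℝ) - c.2)]
  have h2 : ((p.2 : ℝ) - c.2) ^ 2 ≤ r ^ 2 := by nlinarith [sq_nonneg ((p.1 : ℝ) - c.1)]
  have h3 := abs_le.mp (sq_le_sq.mp h1)
  have h4 := abs_le.mp (sq_le_sq.mp h2)
  refine ⟨⟨?_, ?_⟩, ⟨?_, ?_⟩⟩
  · have : (⌊c.1 - |r|⌋ : ℝ) ≤ p.1 := (Int.floor_le _).trans (by linarith [h3.1])
    exact_mod_cast this
  · have : (p.1 : ℝ) ≤ (⌈c.1 + |r|⌉ : ℝ) := le_trans (by linarith [h3.2]) (Int.le_ceil _)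
    exact_mod_cast this
  · have : (⌊c.2 - |r|⌋ : ℝ) ≤ p.2 := (Int.floor_le _).trans (by linarith [h4.1])
    exact_mod_cast this
  · have : (p.2 : ℝ) ≤ (⌈c.2 + |r|⌉ : ℝ) := le_trans (by linarith [h4.2]) (Int.le_ceil _)
    exact_mod_cast this

/-- Translating the centre by a lattice vector does not change the number. -/
lemma ncard_translate (c : ℝ × ℝ) (r : ℝ) (a b : ℤ) :
    (inside (c.1 + a, c.2 + b) r).ncard = (inside c r).ncard := by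
  have h : inside (c.1 + a, c.2 + b) r = (fun p : ℤ × ℤ => (p.1 + a, p.2 + b)) '' inside c r := by
    ext p
    simp only [inside, Set.mem_ofPred_eq, Set.mem_image, Prod.exists]
    constructor
    · intro h
      refine ⟨p.1 - a, p.2 - b, ?_, ?_⟩
      · push_cast
        have e1 : (p.1 : ℝ) - a - c.1 = p.1 - (c.1 + a) := by ring
        have e2 : (p.2 : ℝ) - b - c.2 = p.2 - (c.2 + b) := by ring
        rw [e1, e2]; exact h
      · ext <;> simp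
    · rintro ⟨x, y, h, rfl⟩
      push_cast
      have e1 : (x : ℝ) + a - (c.1 + a) = x - c.1 := by ring
      have e2 : (y : ℝ) + b - (c.2 + b) = y - c.2 := by ring
      rw [e1, e2]; exact h
  rw [h]
  exact Set.ncard_image_of_injective _ (fun p q hpq => by
    simp only [Prod.mk.injEq, add_left_inj] at hpq
    exact Prod.ext hpq.1 hpq.2)

/-- Lower semicontinuity of the number of enclosed points. -/
lemma lsc (c : ℝ × ℝ) (r : ℝ) :
    ∀ᶠ z : ℝ × (ℝ × ℝ) in 𝓝 (r, c), (inside c r).ncard ≤ (inside z.2 z.1).ncard := by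
  have h1 : ∀ᶠ z : ℝ × (ℝ × ℝ) in 𝓝 (r, c), ∀ p ∈ inside c r, p ∈ inside z.2 z.1 := by
    rw [(inside_finite c r).eventually_all]
    intro p hp
    have hcont : Continuous fun z : ℝ × (ℝ × ℝ) =>
        ((p.1 : ℝ) - z.2.1) ^ 2 + ((p.2 : ℝ) - z.2.2) ^ 2 - z.1 ^ 2 := by fun_prop
    have hlt : ((p.1 : ℝ) - c.1) ^ 2 + ((p.2 : ℝ) - c.2) ^ 2 - r ^ 2 < 0 := by
      have : ((p.1 : ℝ) - c.1) ^ 2 + ((p.2 : ℝ) - c.2) ^ 2 < r ^ 2 := hp
      linarith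
    have := hcont.continuousAt.eventually_lt (continuousAt_const (y := (0 : ℝ)) (x := (r, c))) hlt
    filter_upwards [this] with z hz
    show ((p.1 : ℝ) - z.2.1) ^ 2 + ((p.2 : ℝ) - z.2.2) ^ 2 < z.1 ^ 2
    linarith
  filter_upwards [h1] with z hz
  exact Set.ncard_le_ncard hz (inside_finite _ _)

/-- A disc of radius `r` contains at least `⌊r⌋²` lattice points. -/
lemma floor_sq_le (c : ℝ × ℝ) (r : ℝ) (hr : 0 < r) : ⌊r⌋₊ ^ 2 ≤ (inside c r).ncard := by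
  set k := ⌊r⌋₊ with hk
  set a := ⌈c.1 - r / 2⌉ with ha
  set b := ⌈c.2 - r / 2⌉ with hb
  set S : Finset (ℤ × ℤ) := (Finset.Ico a (a + k)) ×ˢ (Finset.Ico b (b + k)) with hS
  have hcard : S.card = k ^ 2 := by
    rw [hS, Finset.card_product, Int.card_Ico, Int.card_Ico]
    simp [pow_two]
  have hkr : (k : ℝ) ≤ r := Nat.floor_le hr.le
  have hsub : (S : Set (ℤ × ℤ)) ⊆ inside c r := by
    intro p hp
    rw [Finset.mem_coe, hS, Finset.mem_product, Finset.mem_Ico, Finset.mem_Ico] at hp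
    obtain ⟨⟨h1, h2⟩, ⟨h3, h4⟩⟩ := hp
    have a1 : c.1 - r / 2 ≤ a := Int.le_ceil _
    have a2 : (a : ℝ) < c.1 - r / 2 + 1 := Int.ceil_lt_add_one _
    have b1 : c.2 - r / 2 ≤ b := Int.le_ceil _
    have b2 : (b : ℝ) < c.2 - r / 2 + 1 := Int.ceil_lt_add_one _
    have h1' : (a : ℝ) ≤ p.1 := by exact_mod_cast h1
    have h2' : (p.1 : ℝ) + 1 ≤ a + k := by exact_mod_cast h2
    have h3' : (b : ℝ) ≤ p.2 := by exact_mod_cast h3
    have h4' : (p.2 : ℝ) + 1 ≤ b + k := by exact_mod_cast h4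
    have e1 : ((p.1 : ℝ) - c.1) ^ 2 ≤ (r / 2) ^ 2 := by
      apply sq_le_sq.mpr
      rw [abs_of_pos (by positivity : (0 : ℝ) < r / 2)]
      apply abs_le.mpr
      constructor <;> linarith
    have e2 : ((p.2 : ℝ) - c.2) ^ 2 ≤ (r / 2) ^ 2 := by
      apply sq_le_sq.mpr
      rw [abs_of_pos (by positivity : (0 : ℝ) < r / 2)]
      apply abs_le.mpr
      constructor <;> linarith
    show ((p.1 : ℝ) - c.1) ^ 2 + ((p.2 : ℝ) - c.2) ^ 2 < r ^ 2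
    nlinarith [pow_pos hr 2]
  rw [← hcard, ← Set.ncard_coe_finset]
  exact Set.ncard_le_ncard hsub (inside_finite _ _)

lemma radius_lt {c : ℝ × ℝ} {r : ℝ} (hr : 0 < r) {n : ℕ} (h : (inside c r).ncard ≤ n) :
    r < Real.sqrt n + 1 := by
  have h1 := (floor_sq_le c r hr).trans h
  have h2 : (⌊r⌋₊ : ℝ) ≤ Real.sqrt n := by
    apply Real.le_sqrt_of_sq_le
    exact_mod_cast h1
  linarith [Nat.lt_floor_add_one r]

/-- The lattice points on the circle. -/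
def onCircle (c : ℝ × ℝ) (r : ℝ) : Set (ℤ × ℤ) :=
  {p | ((p.1 : ℝ) - c.1) ^ 2 + ((p.2 : ℝ) - c.2) ^ 2 = r ^ 2}

lemma onCircle_finite (c : ℝ × ℝ) {r : ℝ} (hr : 0 < r) : (onCircle c r).Finite := by
  refine (inside_finite c (r + 1)).subset fun p hp => ?_
  have hp' : ((p.1 : ℝ) - c.1) ^ 2 + ((p.2 : ℝ) - c.2) ^ 2 = r ^ 2 := hp
  show ((p.1 : ℝ) - c.1) ^ 2 + ((p.2 : ℝ) - c.2) ^ 2 < (r + 1) ^ 2
  rw [hp']; nlinarith

/-- Slightly enlarging the radius adds at most the points on the circle. -/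
lemma enlarge (c : ℝ × ℝ) {r : ℝ} (hr : 0 < r) :
    ∃ s : ℝ, 0 < s ∧ (inside c (r + s)).ncard ≤ (inside c r).ncard + (onCircle c r).ncard := by
  have h1 : ∀ᶠ s : ℝ in 𝓝 0, ∀ p ∈ (inside c (r + 1)) \ (inside c r ∪ onCircle c r),
      p ∉ inside c (r + s) := by
    rw [((inside_finite c (r + 1)).subset Set.sdiff_subset).eventually_all]
    rintro p ⟨_, hp⟩
    rw [Set.mem_union, not_or] at hp
    have hp1 : ¬ ((p.1 : ℝ) - c.1) ^ 2 + ((p.2 : ℝ) - c.2) ^ 2 < r ^ 2 := hp.1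
    have hp2 : ¬ ((p.1 : ℝ) - c.1) ^ 2 + ((p.2 : ℝ) - c.2) ^ 2 = r ^ 2 := hp.2
    have hp3 : (r + 0) ^ 2 < ((p.1 : ℝ) - c.1) ^ 2 + ((p.2 : ℝ) - c.2) ^ 2 := by
      rw [add_zero]
      exact lt_of_le_of_ne (not_lt.mp hp1) (Ne.symm hp2)
    have hcont : ContinuousAt (fun s : ℝ => (r + s) ^ 2) 0 := by fun_prop
    have := hcont.eventually_lt (continuousAt_const (y := ((p.1 : ℝ) - c.1) ^ 2 + ((p.2 : ℝ) - c.2) ^ 2)) hp3
    filter_upwards [this] with s hs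
    exact not_lt.mpr hs.le
  have h2 : ∀ᶠ s : ℝ in 𝓝[>] 0, (∀ p ∈ (inside c (r + 1)) \ (inside c r ∪ onCircle c r),
      p ∉ inside c (r + s)) ∧ s ∈ Set.Ioo (0 : ℝ) 1 :=
    (h1.filter_mono nhdsWithin_le_nhds).and (Ioo_mem_nhdsGT one_pos)
  obtain ⟨s, hs, hs0, hs1⟩ := h2.exists
  refine ⟨s, hs0, ?_⟩
  have hsub : inside c (r + s) ⊆ inside c r ∪ onCircle c r := by
    intro p hp
    by_contra hn
    refine hs p ⟨?_, hn⟩ hp
    have hp' : ((p.1 : ℝ) - c.1) ^ 2 + ((p.2 : ℝ) - c.2) ^ 2 < (r + s) ^ 2 := hp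
    show ((p.1 : ℝ) - c.1) ^ 2 + ((p.2 : ℝ) - c.2) ^ 2 < (r + 1) ^ 2
    nlinarith
  calc (inside c (r + s)).ncard ≤ (inside c r ∪ onCircle c r).ncard :=
        Set.ncard_le_ncard hsub ((inside_finite _ _).union (onCircle_finite _ hr))
    _ ≤ _ := Set.ncard_union_le _ _

/-- The record circle belonging to `n`. -/
theorem record (n : ℕ) : ∃ (c : ℝ × ℝ) (ρ : ℝ), 1 / 2 ≤ ρ ∧ (inside c ρ).ncard ≤ n ∧
    (∀ (c' : ℝ × ℝ) (r : ℝ), 0 < r → (inside c' r).ncard ≤ n → r ≤ ρ) := by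
  set S : Set ℝ := {r | 0 < r ∧ ∃ c : ℝ × ℝ, (inside c r).ncard ≤ n} with hS
  have hne : (1 / 2 : ℝ) ∈ S := by
    refine ⟨by norm_num, (1 / 2, 1 / 2), ?_⟩
    have : inside ((1 / 2 : ℝ), (1 / 2 : ℝ)) (1 / 2) = ∅ := by
      ext p
      simp only [inside, Set.mem_ofPred_eq, Set.mem_empty_iff_false, iff_false, not_lt]
      have h1 : ((p.1 : ℝ) - 1 / 2) ^ 2 ≥ 1 / 4 := by
        rcases le_or_gt p.1 0 with h | h
        · have : (p.1 : ℝ) ≤ 0 := by exact_mod_cast h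
          nlinarith
        · have : (1 : ℝ) ≤ p.1 := by exact_mod_cast h
          nlinarith
      nlinarith [sq_nonneg ((p.2 : ℝ) - 1 / 2)]
    rw [this]; simp
  have hbdd : BddAbove S := by
    refine ⟨Real.sqrt n + 1, ?_⟩
    rintro r ⟨hr, c, hc⟩
    exact (radius_lt hr hc).le
  set ρ := sSup S with hρ
  have hρ2 : 1 / 2 ≤ ρ := le_csSup hbdd hne
  have hρpos : 0 < ρ := by linarith
  have hmem : ∃ c : ℝ × ℝ, (inside c ρ).ncard ≤ n := by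
    by_contra hcon
    push Not at hcon
    have hK : IsCompact (Set.Icc (0 : ℝ) 1 ×ˢ Set.Icc (0 : ℝ) 1) := isCompact_Icc.prod isCompact_Icc
    have hev : ∀ᶠ r in 𝓝 ρ, ∀ c ∈ (Set.Icc (0 : ℝ) 1 ×ˢ Set.Icc (0 : ℝ) 1),
        n < (inside c r).ncard := by
      apply hK.eventually_forall_of_forall_eventually
      intro c _
      filter_upwards [lsc c ρ] with z hz
      exact (hcon c).trans_le hz
    obtain ⟨δ, hδ, hball⟩ := Metric.eventually_nhds_iff.mp hev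
    obtain ⟨r, hrS, hr⟩ := exists_lt_of_lt_csSup ⟨_, hne⟩ (show ρ - δ < ρ by linarith)
    have hrle : r ≤ ρ := le_csSup hbdd hrS
    obtain ⟨hr0, c, hc⟩ := hrS
    have h1 := hball (y := r) (by rw [Real.dist_eq, abs_lt]; constructor <;> linarith)
      (Int.fract c.1, Int.fract c.2)
      ⟨⟨Int.fract_nonneg _, (Int.fract_lt_one _).le⟩, ⟨Int.fract_nonneg _, (Int.fract_lt_one _).le⟩⟩
    have h2 := ncard_translate (Int.fract c.1, Int.fract c.2) r ⌊c.1⌋ ⌊c.2⌋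
    simp only [Int.fract_add_floor] at h2
    rw [← h2] at h1
    exact absurd hc (not_le.mpr h1)
  obtain ⟨c, hc⟩ := hmem
  refine ⟨c, ρ, hρ2, hc, fun c' r hr hr' => le_csSup hbdd ⟨hr, c', hr'⟩⟩

end Pool.Agent.H94.MC
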