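import Mathlib
import Pool.Agent.H94.MC.Geom

/-!
# Few lattice points on a circle, and the short interval theorem
-/

namespace Pool.Agent.H94.MC

open Set Filter Topology

/-- three distinct points of a circle are not collinear -/
lemma det_ne_zero {c : ℝ × ℝ} {r : ℝ} {p q s : ℤ × ℤ} (hp : p ∈ onCircle c r)
    (hq : q ∈ onCircle c r) (hs : s ∈ onCircle c r) (hpq : p ≠ q) (hps : p ≠ s) (hqs : q ≠ s) :
    (q.1 - p.1) * (s.2 - p.2) - (s.1 - p.1) * (q.2 - p.2) ≠ 0 := by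
  intro h
  have h' : ((q.1 : ℝ) - p.1) * (s.2 - p.2) - (s.1 - p.1) * (q.2 - p.2) = 0 := by exact_mod_cast h
  have hp' : ((p.1 : ℝ) - c.1) ^ 2 + ((p.2 : ℝ) - c.2) ^ 2 = r ^ 2 := hp
  have hq' : ((q.1 : ℝ) - c.1) ^ 2 + ((q.2 : ℝ) - c.2) ^ 2 = r ^ 2 := hq
  have hs' : ((s.1 : ℝ) - c.1) ^ 2 + ((s.2 : ℝ) - c.2) ^ 2 = r ^ 2 := hs
  set ax : ℝ := (q.1 : ℝ) - p.1
  set ay : ℝ := (q.2 : ℝ) - p.2
  set bx : ℝ := (s.1 : ℝ) - p.1
  set by' : ℝ := (s.2 : ℝ) - p.2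
  have hA : ax ^ 2 + ay ^ 2 ≠ 0 := by
    intro h0
    apply hpq
    have h1 : ax = 0 := by nlinarith [sq_nonneg ax, sq_nonneg ay]
    have h2 : ay = 0 := by nlinarith [sq_nonneg ax, sq_nonneg ay]
    have h3 : (p.1 : ℝ) = q.1 := by simp only [ax] at h1; linarith
    have h4 : (p.2 : ℝ) = q.2 := by simp only [ay] at h2; linarith
    exact Prod.ext (by exact_mod_cast h3) (by exact_mod_cast h4)
  have hB : bx ^ 2 + by' ^ 2 ≠ 0 := by
    intro h0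
    apply hps
    have h1 : bx = 0 := by nlinarith [sq_nonneg bx, sq_nonneg by']
    have h2 : by' = 0 := by nlinarith [sq_nonneg bx, sq_nonneg by']
    have h3 : (p.1 : ℝ) = s.1 := by simp only [bx] at h1; linarith
    have h4 : (p.2 : ℝ) = s.2 := by simp only [by'] at h2; linarith
    exact Prod.ext (by exact_mod_cast h3) (by exact_mod_cast h4)
  -- |a|² = 2 a·e with e = c - p
  have ha : ax ^ 2 + ay ^ 2 = 2 * (ax * (c.1 - p.1) + ay * (c.2 - p.2)) := by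
    simp only [ax, ay]; linarith
  have hb : bx ^ 2 + by' ^ 2 = 2 * (bx * (c.1 - p.1) + by' * (c.2 - p.2)) := by
    simp only [bx, by']; linarith
  -- a and b are parallel: b = t a
  set t : ℝ := (ax * bx + ay * by') / (ax ^ 2 + ay ^ 2) with ht
  have hbx : bx = t * ax := by
    rw [ht, div_mul_eq_mul_div, eq_div_iff hA]
    linear_combination (-ay) * h'
  have hby : by' = t * ay := by
    rw [ht, div_mul_eq_mul_div, eq_div_iff hA]
    linear_combination ax * h'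
  have hb2 : t ^ 2 * (ax ^ 2 + ay ^ 2) = t * (ax ^ 2 + ay ^ 2) := by
    have h1 : t ^ 2 * (ax ^ 2 + ay ^ 2) = bx ^ 2 + by' ^ 2 := by rw [hbx, hby]; ring
    rw [h1, hb, hbx, hby, ha]; ring
  have ht2 : t ^ 2 = t := mul_right_cancel₀ hA hb2
  have ht3 : t = 0 ∨ t = 1 := by
    have : t * (t - 1) = 0 := by linear_combination ht2
    rcases mul_eq_zero.mp this with h1 | h1
    · exact Or.inl h1
    · exact Or.inr (by linarith)
  rcases ht3 with h1 | h1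
  · apply hB; rw [hbx, hby, h1]; ring
  · apply hqs
    rw [h1, one_mul] at hbx hby
    have h3 : (q.1 : ℝ) = s.1 := by simp only [bx, ax] at hbx; linarith
    have h4 : (q.2 : ℝ) = s.2 := by simp only [by', ay] at hby; linarith
    exact Prod.ext (by exact_mod_cast h3) (by exact_mod_cast h4)

/-- A circle with at least three lattice points has at most `4 τ(M)²` of them, `M ≤ 64 r⁶`. -/
theorem card_onCircle {c : ℝ × ℝ} {r : ℝ} (hr : 0 < r) (h3 : 3 ≤ (onCircle c r).ncard) :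
    ∃ M : ℕ, M ≠ 0 ∧ (M : ℝ) ≤ 64 * r ^ 6 ∧ (onCircle c r).ncard ≤ 4 * M.divisors.card ^ 2 := by
  classical
  have hfin := onCircle_finite c hr
  set S : Finset (ℤ × ℤ) := hfin.toFinset with hS
  have hcardS : (onCircle c r).ncard = S.card := Set.ncard_eq_toFinset_card _ hfin
  have hmem : ∀ p, p ∈ S ↔ p ∈ onCircle c r := fun p => by rw [hS, Set.Finite.mem_toFinset]
  rw [hcardS] at h3 ⊢
  obtain ⟨p, hp, q, hq, s, hs, hpq, hps, hqs⟩ := Finset.two_lt_card.mp h3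
  rw [hmem] at hp hq hs
  have hdet := det_ne_zero hp hq hs hpq hps hqs
  set d : ℤ := (q.1 - p.1) * (s.2 - p.2) - (s.1 - p.1) * (q.2 - p.2) with hd
  set u : ℤ := (q.1 ^ 2 + q.2 ^ 2 - p.1 ^ 2 - p.2 ^ 2) * (s.2 - p.2)
    - (s.1 ^ 2 + s.2 ^ 2 - p.1 ^ 2 - p.2 ^ 2) * (q.2 - p.2) with hu
  set v : ℤ := (s.1 ^ 2 + s.2 ^ 2 - p.1 ^ 2 - p.2 ^ 2) * (q.1 - p.1)
    - (q.1 ^ 2 + q.2 ^ 2 - p.1 ^ 2 - p.2 ^ 2) * (s.1 - p.1) with hv
  have hp' : ((p.1 : ℝ) - c.1) ^ 2 + ((p.2 : ℝ) - c.2) ^ 2 = r ^ 2 := hp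
  have hq' : ((q.1 : ℝ) - c.1) ^ 2 + ((q.2 : ℝ) - c.2) ^ 2 = r ^ 2 := hq
  have hs' : ((s.1 : ℝ) - c.1) ^ 2 + ((s.2 : ℝ) - c.2) ^ 2 = r ^ 2 := hs
  have eq1 : ((q.1 : ℝ) ^ 2 + q.2 ^ 2 - p.1 ^ 2 - p.2 ^ 2)
      = 2 * (((q.1 : ℝ) - p.1) * c.1 + ((q.2 : ℝ) - p.2) * c.2) := by linarith
  have eq2 : ((s.1 : ℝ) ^ 2 + s.2 ^ 2 - p.1 ^ 2 - p.2 ^ 2)
      = 2 * (((s.1 : ℝ) - p.1) * c.1 + ((s.2 : ℝ) - p.2) * c.2) := by linarith
  have hcu : (u : ℝ) = 2 * d * c.1 := by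
    rw [hu, hd]; push_cast; rw [eq1, eq2]; ring
  have hcv : (v : ℝ) = 2 * d * c.2 := by
    rw [hv, hd]; push_cast; rw [eq1, eq2]; ring
  -- the integral radius
  have key : ∀ z ∈ onCircle c r, ((2 * d * z.1 - u : ℤ) : ℝ) ^ 2 + ((2 * d * z.2 - v : ℤ) : ℝ) ^ 2
      = (2 * d * r) ^ 2 := by
    intro z hz
    have hz' : ((z.1 : ℝ) - c.1) ^ 2 + ((z.2 : ℝ) - c.2) ^ 2 = r ^ 2 := hz
    push_cast
    rw [hcu, hcv]
    have : (2 * (d : ℝ) * z.1 - 2 * d * c.1) ^ 2 + (2 * (d : ℝ) * z.2 - 2 * d * c.2) ^ 2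
        = (2 * d) ^ 2 * (((z.1 : ℝ) - c.1) ^ 2 + ((z.2 : ℝ) - c.2) ^ 2) := by ring
    rw [this, hz']; ring
  set Mz : ℤ := (2 * d * p.1 - u) ^ 2 + (2 * d * p.2 - v) ^ 2 with hMz
  have hMr : (Mz : ℝ) = (2 * d * r) ^ 2 := by
    rw [hMz]; have := key p hp; push_cast at this ⊢; exact this
  have hd0 : (d : ℝ) ≠ 0 := by exact_mod_cast hdet
  have hMpos : (0 : ℝ) < Mz := by rw [hMr]; positivity
  have hMzpos : 0 < Mz := by exact_mod_cast hMpos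
  set M : ℕ := Mz.toNat with hM
  have hMM : (M : ℤ) = Mz := Int.toNat_of_nonneg hMzpos.le
  refine ⟨M, by omega, ?_, ?_⟩
  · have h1 : (M : ℝ) = (2 * d * r) ^ 2 := by rw [← hMr, ← hMM]; push_cast; rfl
    rw [h1]
    -- |d| ≤ |a||b| ≤ 4 r²
    set ax : ℝ := (q.1 : ℝ) - p.1 with hax
    set ay : ℝ := (q.2 : ℝ) - p.2 with hay
    set bx : ℝ := (s.1 : ℝ) - p.1 with hbx
    set by' : ℝ := (s.2 : ℝ) - p.2 with hby
    have hdr : (d : ℝ) = ax * by' - bx * ay := by rw [hd]; push_cast; rfl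
    have ha : ax ^ 2 + ay ^ 2 ≤ 4 * r ^ 2 := by
      have e1 : ax = ((q.1 : ℝ) - c.1) - ((p.1 : ℝ) - c.1) := by rw [hax]; ring
      have e2 : ay = ((q.2 : ℝ) - c.2) - ((p.2 : ℝ) - c.2) := by rw [hay]; ring
      rw [e1, e2]
      nlinarith [sq_nonneg (((q.1 : ℝ) - c.1) + ((p.1 : ℝ) - c.1)),
        sq_nonneg (((q.2 : ℝ) - c.2) + ((p.2 : ℝ) - c.2))]
    have hb : bx ^ 2 + by' ^ 2 ≤ 4 * r ^ 2 := by
      have e1 : bx = ((s.1 : ℝ) - c.1) - ((p.1 : ℝ) - c.1) := by rw [hbx]; ring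
      have e2 : by' = ((s.2 : ℝ) - c.2) - ((p.2 : ℝ) - c.2) := by rw [hby]; ring
      rw [e1, e2]
      nlinarith [sq_nonneg (((s.1 : ℝ) - c.1) + ((p.1 : ℝ) - c.1)),
        sq_nonneg (((s.2 : ℝ) - c.2) + ((p.2 : ℝ) - c.2))]
    have hd2 : (d : ℝ) ^ 2 ≤ 16 * r ^ 4 := by
      rw [hdr]
      have h4 : (ax * by' - bx * ay) ^ 2 ≤ (ax ^ 2 + ay ^ 2) * (bx ^ 2 + by' ^ 2) := by
        nlinarith [sq_nonneg (ax * bx + ay * by')]
      have h5 : (ax ^ 2 + ay ^ 2) * (bx ^ 2 + by' ^ 2) ≤ (4 * r ^ 2) * (4 * r ^ 2) :=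
        mul_le_mul ha hb (by positivity) (by positivity)
      calc _ ≤ _ := h4
        _ ≤ _ := h5
        _ = 16 * r ^ 4 := by ring
    calc (2 * (d : ℝ) * r) ^ 2 = 4 * r ^ 2 * (d : ℝ) ^ 2 := by ring
      _ ≤ 4 * r ^ 2 * (16 * r ^ 4) := by gcongr
      _ = 64 * r ^ 6 := by ring
  · have hcard : S.card = (S.image (fun z : ℤ × ℤ => (2 * d * z.1 - u, 2 * d * z.2 - v))).card := by
      rw [Finset.card_image_of_injective]
      intro z w hzw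
      simp only [Prod.mk.injEq, sub_left_inj, mul_eq_mul_left_iff] at hzw
      have h2d : ¬ (2 * d = 0) := by simpa using hdet
      refine Prod.ext ?_ ?_
      · rcases hzw.1 with h | h
        · exact h
        · exact absurd h h2d
      · rcases hzw.2 with h | h
        · exact h
        · exact absurd h h2d
    rw [hcard]
    refine card_reps_le M (by omega) _ ?_
    intro z hz
    rw [Finset.mem_image] at hz
    obtain ⟨w, hw, rfl⟩ := hz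
    rw [hmem] at hw
    have h1 := key w hw
    rw [← hMr] at h1
    rw [hMM]
    exact_mod_cast h1

/-- Upper bound for the number of lattice points on the record circle. -/
theorem onCircle_bound (ε : ℝ) (hε : 0 < ε) : ∃ C : ℝ, 0 < C ∧ ∀ (c : ℝ × ℝ) (r : ℝ), 1 / 2 ≤ r →
    ((onCircle c r).ncard : ℝ) ≤ C * (2 * r) ^ ε := by
  obtain ⟨D, hD1, hD⟩ := Pool.Agent.H14.PT.divisor_bound (ε / 12) (by positivity)
  refine ⟨4 * D ^ 2 * 64 ^ (ε / 6 : ℝ) + 2, by positivity, ?_⟩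
  intro c r hr
  have hr0 : 0 < r := by linarith
  have h2r : 1 ≤ 2 * r := by linarith
  have hone : 1 ≤ (2 * r) ^ ε := Real.one_le_rpow h2r hε.le
  rcases Nat.lt_or_ge (onCircle c r).ncard 3 with h | h
  · have h1 : ((onCircle c r).ncard : ℝ) ≤ 2 := by exact_mod_cast (by omega : (onCircle c r).ncard ≤ 2)
    have h2 : 0 ≤ 4 * D ^ 2 * 64 ^ (ε / 6 : ℝ) := by positivity
    nlinarith
  · obtain ⟨M, hM0, hMr, hcard⟩ := card_onCircle hr0 h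
    have h1 := hD M hM0
    have h2 : ((onCircle c r).ncard : ℝ) ≤ 4 * (M.divisors.card : ℝ) ^ 2 := by exact_mod_cast hcard
    have h3 : (M.divisors.card : ℝ) ^ 2 ≤ (D * (M : ℝ) ^ (ε / 12)) ^ 2 := by
      gcongr
    have hMnn : (0 : ℝ) ≤ M := by positivity
    have h4 : (D * (M : ℝ) ^ (ε / 12)) ^ 2 = D ^ 2 * (M : ℝ) ^ (ε / 6) := by
      rw [mul_pow, ← Real.rpow_natCast ((M : ℝ) ^ (ε / 12)) 2, ← Real.rpow_mul hMnn]
      congr 2
      push_cast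
      ring
    have h5 : (M : ℝ) ^ (ε / 6) ≤ 64 ^ (ε / 6 : ℝ) * (2 * r) ^ ε := by
      calc (M : ℝ) ^ (ε / 6) ≤ (64 * (2 * r) ^ 6) ^ (ε / 6) := by
            apply Real.rpow_le_rpow hMnn _ (by positivity)
            refine hMr.trans ?_
            have : r ^ 6 ≤ (2 * r) ^ 6 := by
              apply pow_le_pow_left₀ hr0.le; linarith
            linarith
        _ = 64 ^ (ε / 6 : ℝ) * (2 * r) ^ ε := by
            rw [Real.mul_rpow (by norm_num) (by positivity), ← Real.rpow_natCast (2 * r) 6,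
              ← Real.rpow_mul (by positivity)]
            congr 2
            push_cast
            ring
    calc ((onCircle c r).ncard : ℝ) ≤ 4 * (M.divisors.card : ℝ) ^ 2 := h2
      _ ≤ 4 * (D * (M : ℝ) ^ (ε / 12)) ^ 2 := by linarith
      _ = 4 * D ^ 2 * (M : ℝ) ^ (ε / 6) := by rw [h4]; ring
      _ ≤ 4 * D ^ 2 * (64 ^ (ε / 6 : ℝ) * (2 * r) ^ ε) := by gcongr
      _ ≤ (4 * D ^ 2 * 64 ^ (ε / 6 : ℝ) + 2) * (2 * r) ^ ε := by nlinarith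

/-- From the record circle of `n`: an MC integer `m ≤ n < m + (number of points on the circle)`. -/
theorem mc_near (n : ℕ) : ∃ (m : ℕ) (c : ℝ × ℝ) (ρ : ℝ), MC m ∧ m ≤ n ∧ 1 / 2 ≤ ρ ∧
    ρ < Real.sqrt n + 1 ∧ n + 1 ≤ m + (onCircle c ρ).ncard := by
  obtain ⟨c, ρ, hρ, hc, hmax⟩ := record n
  have hρ0 : 0 < ρ := by linarith
  refine ⟨(inside c ρ).ncard, c, ρ, ?_, hc, hρ, radius_lt hρ0 hc, ?_⟩
  · refine ⟨ρ, ⟨c, hρ0, rfl⟩, ?_⟩
    rintro r ⟨c', hr, hc'⟩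
    exact hmax c' r hr (hc'.le.trans hc)
  · obtain ⟨s, hs, hle⟩ := enlarge c hρ0
    by_contra hcon
    have h1 : (inside c (ρ + s)).ncard ≤ n := by omega
    have h2 := hmax c (ρ + s) (by linarith) h1
    linarith

/-- Short intervals. -/
theorem short_interval (ε : ℝ) (hε : 0 < ε) : ∃ N₀ : ℕ, ∀ n : ℕ, N₀ ≤ n →
    ∃ m : ℕ, MC m ∧ m ≤ n ∧ (n : ℝ) - m ≤ (n : ℝ) ^ ε := by
  obtain ⟨C, hC, hb⟩ := onCircle_bound ε hε
  -- b ≤ C (2 (√n + 1))^ε ≤ C (4 √n)^ε = C 4^ε n^(ε/2)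
  have htend : Tendsto (fun n : ℕ => (n : ℝ) ^ (ε / 2)) atTop atTop :=
    (tendsto_rpow_atTop (by positivity : 0 < ε / 2)).comp tendsto_natCast_atTop_atTop
  obtain ⟨N₁, hN₁⟩ := (htend.eventually_ge_atTop (C * 4 ^ ε)).exists_forall_of_atTop
  refine ⟨max N₁ 1, fun n hn => ?_⟩
  have hn1 : 1 ≤ n := le_trans (le_max_right _ _) hn
  have hnR : (1 : ℝ) ≤ n := by exact_mod_cast hn1
  obtain ⟨m, c, ρ, hm, hmn, hρ, hρn, hle⟩ := mc_near n
  refine ⟨m, hm, hmn, ?_⟩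
  have hle' : (n : ℝ) + 1 ≤ m + (onCircle c ρ).ncard := by exact_mod_cast hle
  have h1 := hb c ρ hρ
  have hs1 : 1 ≤ Real.sqrt n := by rw [Real.one_le_sqrt]; exact hnR
  have h2 : (2 * ρ) ^ ε ≤ (4 * Real.sqrt n) ^ ε :=
    Real.rpow_le_rpow (by linarith) (by linarith) hε.le
  have h3 : (4 * Real.sqrt n) ^ ε = 4 ^ ε * (n : ℝ) ^ (ε / 2) := by
    rw [Real.mul_rpow (by norm_num) (Real.sqrt_nonneg _), Real.sqrt_eq_rpow,
      ← Real.rpow_mul (by linarith)]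
    congr 2
    ring
  have h4 : C * 4 ^ ε ≤ (n : ℝ) ^ (ε / 2) := hN₁ n (le_trans (le_max_left _ _) hn)
  have h5 : (n : ℝ) ^ ε = (n : ℝ) ^ (ε / 2) * (n : ℝ) ^ (ε / 2) := by
    rw [← Real.rpow_add (by linarith)]; congr 1; ring
  have hpos : 0 ≤ (n : ℝ) ^ (ε / 2) := by positivity
  calc (n : ℝ) - m ≤ (onCircle c ρ).ncard := by linarith
    _ ≤ C * (2 * ρ) ^ ε := h1
    _ ≤ C * (4 ^ ε * (n : ℝ) ^ (ε / 2)) := by rw [← h3]; gcongr
    _ = C * 4 ^ ε * (n : ℝ) ^ (ε / 2) := by ring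
    _ ≤ (n : ℝ) ^ (ε / 2) * (n : ℝ) ^ (ε / 2) := by gcongr
    _ = (n : ℝ) ^ ε := h5.symm

end Pool.Agent.H94.MC
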