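import Mathlib
import Pool.Agent.H94.MC.Final

/-!
# Counting MC integers
-/

namespace Pool.Agent.H94.MC

open Set Filter Topology

open Classical in
/-- the number of MC integers below `N` -/
theorem count_lower (ε : ℝ) (hε : 0 < ε) : ∃ N₀ : ℕ, ∀ N : ℕ, N₀ ≤ N →
    (N : ℝ) ^ (1 - ε) ≤ (((Finset.range N).filter MC).card : ℝ) := by
  obtain ⟨N₁, h1⟩ := short_interval (ε / 2) (by positivity)
  have htend : Tendsto (fun n : ℕ => (n : ℝ) ^ (ε / 2)) atTop atTop :=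
    (tendsto_rpow_atTop (by positivity : 0 < ε / 2)).comp tendsto_natCast_atTop_atTop
  obtain ⟨N₂, hN₂⟩ := (htend.eventually_ge_atTop 4).exists_forall_of_atTop
  refine ⟨max (2 * N₁ + 2) N₂, fun N hN => ?_⟩
  have hNa : 2 * N₁ + 2 ≤ N := (le_max_left _ _).trans hN
  have hNb : (4 : ℝ) ≤ (N : ℝ) ^ (ε / 2) := hN₂ N ((le_max_right _ _).trans hN)
  have hNR : (0 : ℝ) < N := by
    have : 0 < N := by omega
    exact_mod_cast this
  choose! f hf using h1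
  set D : Finset ℕ := Finset.Ico (N / 2) N with hD
  set T : Finset ℕ := (Finset.range N).filter MC with hT
  set k : ℕ := ⌊(N : ℝ) ^ (ε / 2)⌋₊ with hk
  have hmaps : ∀ n ∈ D, f n ∈ T := by
    intro n hn
    rw [hD, Finset.mem_Ico] at hn
    have hn1 : N₁ ≤ n := by omega
    rw [hT, Finset.mem_filter, Finset.mem_range]
    exact ⟨lt_of_le_of_lt (hf n hn1).2.1 hn.2, (hf n hn1).1⟩
  have hfib : ∀ m ∈ T, (D.filter (fun n => f n = m)).card ≤ k + 1 := by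
    intro m _
    have hsub : D.filter (fun n => f n = m) ⊆ Finset.Icc m (m + k) := by
      intro n hn
      rw [Finset.mem_filter, hD, Finset.mem_Ico] at hn
      obtain ⟨⟨ha, hb⟩, hc⟩ := hn
      have hn1 : N₁ ≤ n := by omega
      obtain ⟨_, h2, h3⟩ := hf n hn1
      rw [hc] at h2 h3
      rw [Finset.mem_Icc]
      refine ⟨h2, ?_⟩
      have h4 : (n : ℝ) ^ (ε / 2) ≤ (N : ℝ) ^ (ε / 2) := by
        apply Real.rpow_le_rpow (by positivity) _ (by positivity)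
        exact_mod_cast hb.le
      have h5 : ((n - m : ℕ) : ℝ) ≤ (N : ℝ) ^ (ε / 2) := by
        rw [Nat.cast_sub h2]; linarith
      have h6 : n - m ≤ k := Nat.le_floor h5
      omega
    refine (Finset.card_le_card hsub).trans ?_
    rw [Nat.card_Icc]; omega
  have hcard := Finset.card_le_mul_card_image_of_maps_to hmaps (k + 1) hfib
  have hDc : D.card = N - N / 2 := by rw [hD, Nat.card_Ico]
  have hD2 : (N : ℝ) / 2 ≤ D.card := by
    rw [hDc]
    have : N ≤ 2 * (N - N / 2) := by omega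
    have h' : (N : ℝ) ≤ 2 * ((N - N / 2 : ℕ) : ℝ) := by exact_mod_cast this
    linarith
  have hk1 : ((k + 1 : ℕ) : ℝ) ≤ 2 * (N : ℝ) ^ (ε / 2) := by
    push_cast
    have : (k : ℝ) ≤ (N : ℝ) ^ (ε / 2) := Nat.floor_le (by positivity)
    linarith
  have hcR : (D.card : ℝ) ≤ ((k + 1 : ℕ) : ℝ) * (T.card : ℝ) := by exact_mod_cast hcard
  have hTn : (0 : ℝ) ≤ T.card := by positivity
  have hmain : (N : ℝ) / 2 ≤ 2 * (N : ℝ) ^ (ε / 2) * T.card :=
    hD2.trans (hcR.trans (by gcongr))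
  have hx : (0 : ℝ) < (N : ℝ) ^ (ε / 2) := by positivity
  have hsplit : (N : ℝ) = (N : ℝ) ^ (1 - ε) * ((N : ℝ) ^ (ε / 2) * (N : ℝ) ^ (ε / 2)) := by
    rw [← Real.rpow_add hNR, ← Real.rpow_add hNR]
    have : 1 - ε + (ε / 2 + ε / 2) = 1 := by ring
    rw [this, Real.rpow_one]
  have hy : (0 : ℝ) ≤ (N : ℝ) ^ (1 - ε) := by positivity
  by_contra hcon
  rw [not_le] at hcon
  have h7 : 2 * (N : ℝ) ^ (ε / 2) * T.card < 2 * (N : ℝ) ^ (ε / 2) * (N : ℝ) ^ (1 - ε) := by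
    gcongr
  have h8 : (N : ℝ) / 2 = (N : ℝ) ^ (1 - ε) * (N : ℝ) ^ (ε / 2) * ((N : ℝ) ^ (ε / 2) / 2) := by
    conv_lhs => rw [hsplit]
    ring
  have h9 : (N : ℝ) ^ (1 - ε) * (N : ℝ) ^ (ε / 2) * 2
      ≤ (N : ℝ) ^ (1 - ε) * (N : ℝ) ^ (ε / 2) * ((N : ℝ) ^ (ε / 2) / 2) := by
    gcongr
    linarith
  nlinarith

end Pool.Agent.H94.MC
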