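import Mathlib
import Pool.Agent.H94.MC.Geom

/-!
# Non-MC integers and circles through at least five lattice points
-/

namespace Pool.Agent.H94.MC

open Set Filter Topology

/-- the lattice points of the circle in the closed half plane with inner normal `u` -/
def halfOn (c : ℝ × ℝ) (r : ℝ) (u : ℝ × ℝ) : Set (ℤ × ℤ) :=
  {p ∈ onCircle c r | 0 ≤ ((p.1 : ℝ) - c.1) * u.1 + ((p.2 : ℝ) - c.2) * u.2}

/-- the lattice points of the circle in the open half plane with inner normal `u` -/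
def openOn (c : ℝ × ℝ) (r : ℝ) (u : ℝ × ℝ) : Set (ℤ × ℤ) :=
  {p ∈ onCircle c r | 0 < ((p.1 : ℝ) - c.1) * u.1 + ((p.2 : ℝ) - c.2) * u.2}

lemma expand (p : ℤ × ℤ) (c u : ℝ × ℝ) (t : ℝ) :
    ((p.1 : ℝ) - (c.1 + t * u.1)) ^ 2 + ((p.2 : ℝ) - (c.2 + t * u.2)) ^ 2
    = ((p.1 : ℝ) - c.1) ^ 2 + ((p.2 : ℝ) - c.2) ^ 2
      - 2 * t * (((p.1 : ℝ) - c.1) * u.1 + ((p.2 : ℝ) - c.2) * u.2)
      + t ^ 2 * (u.1 ^ 2 + u.2 ^ 2) := by ring

/-- moving the centre in direction `u` and enlarging a little -/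
lemma move (c : ℝ × ℝ) {r : ℝ} (hr : 0 < r) (u : ℝ × ℝ) :
    ∃ (c' : ℝ × ℝ) (r' : ℝ), r < r' ∧
      (inside c' r').ncard ≤ (inside c r).ncard + (halfOn c r u).ncard := by
  set A : ℝ := |u.1| + |u.2| + r + 2 with hA
  have hApos : 0 < A := by positivity
  -- all points which can be inside
  have hbig : ∀ t : ℝ, 0 < t → t < 1 → inside (c.1 + t * u.1, c.2 + t * u.2) (r + t ^ 2)
      ⊆ inside c (2 * A) := by
    intro t ht0 ht1 p hp
    have hp' : ((p.1 : ℝ) - (c.1 + t * u.1)) ^ 2 + ((p.2 : ℝ) - (c.2 + t * u.2)) ^ 2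
        < (r + t ^ 2) ^ 2 := hp
    have ht2 : t ^ 2 < 1 := by nlinarith
    have hr1 : 0 < r + t ^ 2 := by positivity
    have h1 : |(p.1 : ℝ) - (c.1 + t * u.1)| < r + t ^ 2 := by
      apply abs_lt_of_sq_lt_sq _ hr1.le
      nlinarith [sq_nonneg ((p.2 : ℝ) - (c.2 + t * u.2))]
    have h2 : |(p.2 : ℝ) - (c.2 + t * u.2)| < r + t ^ 2 := by
      apply abs_lt_of_sq_lt_sq _ hr1.le
      nlinarith [sq_nonneg ((p.1 : ℝ) - (c.1 + t * u.1))]
    have h3 : |(p.1 : ℝ) - c.1| < A := by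
      have e : (p.1 : ℝ) - c.1 = ((p.1 : ℝ) - (c.1 + t * u.1)) + t * u.1 := by ring
      have e2 : |t * u.1| ≤ |u.1| := by
        rw [abs_mul, abs_of_pos ht0]
        nlinarith [abs_nonneg u.1]
      rw [e]
      calc _ ≤ |(p.1 : ℝ) - (c.1 + t * u.1)| + |t * u.1| := abs_add_le _ _
        _ < A := by rw [hA]; linarith [abs_nonneg u.2]
    have h4 : |(p.2 : ℝ) - c.2| < A := by
      have e : (p.2 : ℝ) - c.2 = ((p.2 : ℝ) - (c.2 + t * u.2)) + t * u.2 := by ring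
      have e2 : |t * u.2| ≤ |u.2| := by
        rw [abs_mul, abs_of_pos ht0]
        nlinarith [abs_nonneg u.2]
      rw [e]
      calc _ ≤ |(p.2 : ℝ) - (c.2 + t * u.2)| + |t * u.2| := abs_add_le _ _
        _ < A := by rw [hA]; linarith [abs_nonneg u.1]
    show ((p.1 : ℝ) - c.1) ^ 2 + ((p.2 : ℝ) - c.2) ^ 2 < (2 * A) ^ 2
    have h5 : ((p.1 : ℝ) - c.1) ^ 2 < A ^ 2 := by
      rw [← sq_abs]; exact pow_lt_pow_left₀ h3 (abs_nonneg _) two_ne_zero
    have h6 : ((p.2 : ℝ) - c.2) ^ 2 < A ^ 2 := by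
      rw [← sq_abs]; exact pow_lt_pow_left₀ h4 (abs_nonneg _) two_ne_zero
    nlinarith
  have h1 : ∀ᶠ t : ℝ in 𝓝[>] 0, ∀ p ∈ (inside c (2 * A)) \ (inside c r ∪ halfOn c r u),
      p ∉ inside (c.1 + t * u.1, c.2 + t * u.2) (r + t ^ 2) := by
    rw [((inside_finite c (2 * A)).subset Set.sdiff_subset).eventually_all]
    rintro p ⟨_, hp⟩
    rw [Set.mem_union, not_or] at hp
    have hp1 : ¬ ((p.1 : ℝ) - c.1) ^ 2 + ((p.2 : ℝ) - c.2) ^ 2 < r ^ 2 := hp.1
    set κ : ℝ := ((p.1 : ℝ) - c.1) * u.1 + ((p.2 : ℝ) - c.2) * u.2 with hκ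
    rcases eq_or_lt_of_le (not_lt.mp hp1) with heq | hlt
    · -- on the circle, κ < 0
      have hκneg : κ < 0 := by
        by_contra hcon
        exact hp.2 ⟨heq.symm, not_lt.mp hcon⟩
      have hcont : ContinuousAt (fun t : ℝ => 2 * r * t + t ^ 3) 0 := by fun_prop
      have hval : 2 * r * (0 : ℝ) + 0 ^ 3 < 2 * (-κ) := by simp; linarith
      have := hcont.eventually_lt (continuousAt_const (y := 2 * (-κ))) hval
      filter_upwards [nhdsWithin_le_nhds this, self_mem_nhdsWithin] with t ht ht0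
      have ht0' : 0 < t := ht0
      intro hin
      have hin' : ((p.1 : ℝ) - (c.1 + t * u.1)) ^ 2 + ((p.2 : ℝ) - (c.2 + t * u.2)) ^ 2
        < (r + t ^ 2) ^ 2 := hin
      rw [expand, ← heq, ← hκ] at hin'
      have h5 : 0 ≤ t ^ 2 * (u.1 ^ 2 + u.2 ^ 2) := by positivity
      have h6 : t * (2 * r * t + t ^ 3) < t * (2 * (-κ)) := by gcongr
      nlinarith
    · have hcont : ContinuousAt (fun t : ℝ => (r + t ^ 2) ^ 2
          - (((p.1 : ℝ) - (c.1 + t * u.1)) ^ 2 + ((p.2 : ℝ) - (c.2 + t * u.2)) ^ 2)) 0 := by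
        fun_prop
      have hval : (r + (0 : ℝ) ^ 2) ^ 2
          - (((p.1 : ℝ) - (c.1 + 0 * u.1)) ^ 2 + ((p.2 : ℝ) - (c.2 + 0 * u.2)) ^ 2) < 0 := by
        simp; linarith
      have := hcont.eventually_lt (continuousAt_const (y := (0 : ℝ))) hval
      filter_upwards [nhdsWithin_le_nhds this] with t ht
      intro hin
      have hin' : ((p.1 : ℝ) - (c.1 + t * u.1)) ^ 2 + ((p.2 : ℝ) - (c.2 + t * u.2)) ^ 2
        < (r + t ^ 2) ^ 2 := hin
      linarith
  obtain ⟨t, ht, ht0, ht1⟩ := (h1.and (Ioo_mem_nhdsGT one_pos)).exists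
  refine ⟨(c.1 + t * u.1, c.2 + t * u.2), r + t ^ 2, by have := pow_pos ht0 2; linarith, ?_⟩
  have hsub : inside (c.1 + t * u.1, c.2 + t * u.2) (r + t ^ 2) ⊆ inside c r ∪ halfOn c r u := by
    intro p hp
    by_contra hn
    exact ht p ⟨hbig t ht0 ht1 hp, hn⟩ hp
  have hfin : (halfOn c r u).Finite := (onCircle_finite c hr).subset (fun p hp => hp.1)
  calc _ ≤ (inside c r ∪ halfOn c r u).ncard :=
        Set.ncard_le_ncard hsub ((inside_finite _ _).union hfin)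
    _ ≤ _ := Set.ncard_union_le _ _

/-- moving the centre in direction `u` without changing the radius -/
lemma shift (c : ℝ × ℝ) {r : ℝ} (hr : 0 < r) {u : ℝ × ℝ} (hu : u ≠ 0) :
    ∃ c' : ℝ × ℝ, (inside c' r).ncard = (inside c r).ncard + (openOn c r u).ncard := by
  have hu2 : 0 < u.1 ^ 2 + u.2 ^ 2 := by
    rcases eq_or_ne u.1 0 with h | h
    · have : u.2 ≠ 0 := fun h2 => hu (Prod.ext h h2)
      positivity
    · positivity
  set A : ℝ := |u.1| + |u.2| + r + 2 with hA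
  have hApos : 0 < A := by positivity
  have hbig : ∀ t : ℝ, 0 < t → t < 1 → inside (c.1 + t * u.1, c.2 + t * u.2) r
      ⊆ inside c (2 * A) := by
    intro t ht0 ht1 p hp
    have hp' : ((p.1 : ℝ) - (c.1 + t * u.1)) ^ 2 + ((p.2 : ℝ) - (c.2 + t * u.2)) ^ 2
        < r ^ 2 := hp
    have h1 : |(p.1 : ℝ) - (c.1 + t * u.1)| < r := by
      apply abs_lt_of_sq_lt_sq _ hr.le
      nlinarith [sq_nonneg ((p.2 : ℝ) - (c.2 + t * u.2))]
    have h2 : |(p.2 : ℝ) - (c.2 + t * u.2)| < r := by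
      apply abs_lt_of_sq_lt_sq _ hr.le
      nlinarith [sq_nonneg ((p.1 : ℝ) - (c.1 + t * u.1))]
    have h3 : |(p.1 : ℝ) - c.1| < A := by
      have e : (p.1 : ℝ) - c.1 = ((p.1 : ℝ) - (c.1 + t * u.1)) + t * u.1 := by ring
      have e2 : |t * u.1| ≤ |u.1| := by
        rw [abs_mul, abs_of_pos ht0]
        nlinarith [abs_nonneg u.1]
      rw [e]
      calc _ ≤ |(p.1 : ℝ) - (c.1 + t * u.1)| + |t * u.1| := abs_add_le _ _
        _ < A := by rw [hA]; linarith [abs_nonneg u.2]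
    have h4 : |(p.2 : ℝ) - c.2| < A := by
      have e : (p.2 : ℝ) - c.2 = ((p.2 : ℝ) - (c.2 + t * u.2)) + t * u.2 := by ring
      have e2 : |t * u.2| ≤ |u.2| := by
        rw [abs_mul, abs_of_pos ht0]
        nlinarith [abs_nonneg u.2]
      rw [e]
      calc _ ≤ |(p.2 : ℝ) - (c.2 + t * u.2)| + |t * u.2| := abs_add_le _ _
        _ < A := by rw [hA]; linarith [abs_nonneg u.1]
    show ((p.1 : ℝ) - c.1) ^ 2 + ((p.2 : ℝ) - c.2) ^ 2 < (2 * A) ^ 2
    have h5 : ((p.1 : ℝ) - c.1) ^ 2 < A ^ 2 := by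
      rw [← sq_abs]; exact pow_lt_pow_left₀ h3 (abs_nonneg _) two_ne_zero
    have h6 : ((p.2 : ℝ) - c.2) ^ 2 < A ^ 2 := by
      rw [← sq_abs]; exact pow_lt_pow_left₀ h4 (abs_nonneg _) two_ne_zero
    nlinarith
  have hrA : r < 2 * A := by rw [hA]; linarith [abs_nonneg u.1, abs_nonneg u.2]
  have h1 : ∀ᶠ t : ℝ in 𝓝[>] 0, ∀ p ∈ inside c (2 * A),
      (p ∈ inside (c.1 + t * u.1, c.2 + t * u.2) r ↔ p ∈ inside c r ∪ openOn c r u) := by
    rw [(inside_finite c (2 * A)).eventually_all]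
    intro p _
    set κ : ℝ := ((p.1 : ℝ) - c.1) * u.1 + ((p.2 : ℝ) - c.2) * u.2 with hκ
    rcases lt_trichotomy (((p.1 : ℝ) - c.1) ^ 2 + ((p.2 : ℝ) - c.2) ^ 2) (r ^ 2) with h | h | h
    · have hcont : ContinuousAt (fun t : ℝ =>
          (((p.1 : ℝ) - (c.1 + t * u.1)) ^ 2 + ((p.2 : ℝ) - (c.2 + t * u.2)) ^ 2)) 0 := by
        fun_prop
      have hval : (((p.1 : ℝ) - (c.1 + 0 * u.1)) ^ 2 + ((p.2 : ℝ) - (c.2 + 0 * u.2)) ^ 2)
          < r ^ 2 := by simpa using h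
      have := hcont.eventually_lt (continuousAt_const (y := r ^ 2)) hval
      filter_upwards [nhdsWithin_le_nhds this] with t ht
      exact ⟨fun _ => Or.inl h, fun _ => ht⟩
    · rcases lt_or_ge 0 κ with hk | hk
      · have hcont : ContinuousAt (fun t : ℝ => t * (u.1 ^ 2 + u.2 ^ 2)) 0 := by fun_prop
        have hval : (0 : ℝ) * (u.1 ^ 2 + u.2 ^ 2) < 2 * κ := by simp; linarith
        have := hcont.eventually_lt (continuousAt_const (y := 2 * κ)) hval
        filter_upwards [nhdsWithin_le_nhds this, self_mem_nhdsWithin] with t ht ht0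
        have ht0' : 0 < t := ht0
        refine ⟨fun _ => Or.inr ⟨h, hk⟩, fun _ => ?_⟩
        show ((p.1 : ℝ) - (c.1 + t * u.1)) ^ 2 + ((p.2 : ℝ) - (c.2 + t * u.2)) ^ 2 < r ^ 2
        rw [expand, h, ← hκ]
        have h6 : t * (t * (u.1 ^ 2 + u.2 ^ 2)) < t * (2 * κ) := by gcongr
        nlinarith
      · filter_upwards [self_mem_nhdsWithin] with t ht0
        have ht0' : 0 < t := ht0
        constructor
        · intro hin
          exfalso
          have hin' : ((p.1 : ℝ) - (c.1 + t * u.1)) ^ 2 + ((p.2 : ℝ) - (c.2 + t * u.2)) ^ 2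
            < r ^ 2 := hin
          rw [expand, h, ← hκ] at hin'
          have h6 : 0 < t ^ 2 * (u.1 ^ 2 + u.2 ^ 2) := by positivity
          nlinarith
        · rintro (h7 | h7)
          · exact absurd h7 (not_lt.mpr (le_of_eq h.symm))
          · exact absurd h7.2 (not_lt.mpr hk)
    · have hcont : ContinuousAt (fun t : ℝ =>
          (((p.1 : ℝ) - (c.1 + t * u.1)) ^ 2 + ((p.2 : ℝ) - (c.2 + t * u.2)) ^ 2)) 0 := by
        fun_prop
      have hval : r ^ 2 < (((p.1 : ℝ) - (c.1 + 0 * u.1)) ^ 2 + ((p.2 : ℝ) - (c.2 + 0 * u.2)) ^ 2) := by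
        simpa using h
      have := (continuousAt_const (y := r ^ 2)).eventually_lt hcont hval
      filter_upwards [nhdsWithin_le_nhds this] with t ht
      constructor
      · intro hin
        exact absurd hin (not_lt.mpr ht.le)
      · rintro (h7 | h7)
        · exact absurd h7 (not_lt.mpr h.le)
        · exact absurd h7.1 (ne_of_gt h)
  obtain ⟨t, ht, ht0, ht1⟩ := (h1.and (Ioo_mem_nhdsGT one_pos)).exists
  refine ⟨(c.1 + t * u.1, c.2 + t * u.2), ?_⟩
  have heq : inside (c.1 + t * u.1, c.2 + t * u.2) r = inside c r ∪ openOn c r u := by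
    ext p
    by_cases hp : p ∈ inside c (2 * A)
    · exact ht p hp
    · constructor
      · intro h; exact absurd (hbig t ht0 ht1 h) hp
      · rintro (h7 | h7)
        · exact absurd (show p ∈ inside c (2 * A) from by
            have h8 : ((p.1 : ℝ) - c.1) ^ 2 + ((p.2 : ℝ) - c.2) ^ 2 < r ^ 2 := h7
            show ((p.1 : ℝ) - c.1) ^ 2 + ((p.2 : ℝ) - c.2) ^ 2 < (2 * A) ^ 2
            nlinarith) hp
        · exact absurd (show p ∈ inside c (2 * A) from by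
            have h8 : ((p.1 : ℝ) - c.1) ^ 2 + ((p.2 : ℝ) - c.2) ^ 2 = r ^ 2 := h7.1
            show ((p.1 : ℝ) - c.1) ^ 2 + ((p.2 : ℝ) - c.2) ^ 2 < (2 * A) ^ 2
            rw [h8]; nlinarith) hp
  have hfin : (openOn c r u).Finite := (onCircle_finite c hr).subset (fun p hp => hp.1)
  rw [heq]
  refine Set.ncard_union_eq ?_ (inside_finite _ _) hfin
  rw [Set.disjoint_left]
  intro p hp hp2
  have h8 : ((p.1 : ℝ) - c.1) ^ 2 + ((p.2 : ℝ) - c.2) ^ 2 < r ^ 2 := hp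
  have h9 : ((p.1 : ℝ) - c.1) ^ 2 + ((p.2 : ℝ) - c.2) ^ 2 = r ^ 2 := hp2.1
  linarith

end Pool.Agent.H94.MC
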