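import Mathlib
import Pool.Agent.H94.MC.Five

/-!
# Non-MC integers and circles through at least five lattice points, second part
-/

namespace Pool.Agent.H94.MC

open Set Filter Topology

/-- Centres with different distances to all lattice points are dense. -/
lemma dense_generic : Dense {c : ℝ × ℝ | ∀ p q : ℤ × ℤ, p ≠ q →
    ((p.1 : ℝ) - c.1) ^ 2 + ((p.2 : ℝ) - c.2) ^ 2 ≠ ((q.1 : ℝ) - c.1) ^ 2 + ((q.2 : ℝ) - c.2) ^ 2} := by
  have hset : {c : ℝ × ℝ | ∀ p q : ℤ × ℤ, p ≠ q →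
    ((p.1 : ℝ) - c.1) ^ 2 + ((p.2 : ℝ) - c.2) ^ 2 ≠ ((q.1 : ℝ) - c.1) ^ 2 + ((q.2 : ℝ) - c.2) ^ 2}
    = ⋂ z : {z : (ℤ × ℤ) × (ℤ × ℤ) // z.1 ≠ z.2}, {c : ℝ × ℝ |
      ((z.1.1.1 : ℝ) - c.1) ^ 2 + ((z.1.1.2 : ℝ) - c.2) ^ 2
        ≠ ((z.1.2.1 : ℝ) - c.1) ^ 2 + ((z.1.2.2 : ℝ) - c.2) ^ 2} := by
    ext c
    simp only [Set.mem_ofPred_eq, Set.mem_iInter, Subtype.forall, Prod.forall, ne_eq]
  rw [hset]
  apply dense_iInter_of_isOpen
  · rintro ⟨⟨p, q⟩, hpq⟩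
    exact isOpen_ne_fun (by fun_prop) (by fun_prop)
  · rintro ⟨⟨p, q⟩, hpq⟩
    intro c
    rw [mem_closure_iff_nhds]
    intro U hU
    by_cases hc : ((p.1 : ℝ) - c.1) ^ 2 + ((p.2 : ℝ) - c.2) ^ 2
        = ((q.1 : ℝ) - c.1) ^ 2 + ((q.2 : ℝ) - c.2) ^ 2
    · have hcont : ContinuousAt (fun s : ℝ => ((c.1 + s * ((p.1 : ℝ) - q.1), c.2 + s * ((p.2 : ℝ) - q.2)) : ℝ × ℝ)) 0 := by
        fun_prop
      have hU' : U ∈ 𝓝 ((fun s : ℝ => ((c.1 + s * ((p.1 : ℝ) - q.1), c.2 + s * ((p.2 : ℝ) - q.2)) : ℝ × ℝ)) 0) := by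
        simpa using hU
      have hev := hcont.eventually_mem hU'
      obtain ⟨s, hs, hs0⟩ := ((hev.filter_mono nhdsWithin_le_nhds).and
        (self_mem_nhdsWithin (a := (0 : ℝ)) (s := Set.Ioi 0))).exists
      have hs0' : (0 : ℝ) < s := hs0
      refine ⟨_, hs, ?_⟩
      show ((p.1 : ℝ) - (c.1 + s * ((p.1 : ℝ) - q.1))) ^ 2
          + ((p.2 : ℝ) - (c.2 + s * ((p.2 : ℝ) - q.2))) ^ 2
        ≠ ((q.1 : ℝ) - (c.1 + s * ((p.1 : ℝ) - q.1))) ^ 2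
          + ((q.2 : ℝ) - (c.2 + s * ((p.2 : ℝ) - q.2))) ^ 2
      intro heq
      have h1 : 2 * s * (((p.1 : ℝ) - q.1) ^ 2 + ((p.2 : ℝ) - q.2) ^ 2) = 0 := by nlinarith
      have h2 : ((p.1 : ℝ) - q.1) ^ 2 + ((p.2 : ℝ) - q.2) ^ 2 = 0 := by
        rcases mul_eq_zero.mp h1 with h | h
        · linarith
        · exact h
      apply hpq
      have h3 : ((p.1 : ℝ) - q.1) = 0 := by nlinarith [sq_nonneg ((p.1 : ℝ) - q.1), sq_nonneg ((p.2 : ℝ) - q.2)]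
      have h4 : ((p.2 : ℝ) - q.2) = 0 := by nlinarith [sq_nonneg ((p.1 : ℝ) - q.1), sq_nonneg ((p.2 : ℝ) - q.2)]
      exact Prod.ext (by have : (p.1 : ℝ) = q.1 := by linarith
                         exact_mod_cast this)
        (by have : (p.2 : ℝ) = q.2 := by linarith
            exact_mod_cast this)
    · exact ⟨c, mem_of_mem_nhds hU, hc⟩

/-- `n` is enclosed at radii arbitrarily close to the record radius. -/
lemma exact_near (n : ℕ) {c : ℝ × ℝ} {ρ : ℝ} (hρ : 1 / 2 ≤ ρ) (hc : (inside c ρ).ncard ≤ n)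
    (hmax : ∀ (c' : ℝ × ℝ) (r : ℝ), 0 < r → (inside c' r).ncard ≤ n → r ≤ ρ)
    (δ : ℝ) (hδ : 0 < δ) : ∃ (c' : ℝ × ℝ) (r : ℝ), ρ - δ < r ∧ 0 < r ∧ (inside c' r).ncard = n := by
  set η : ℝ := min δ (1 / 4) with hη
  have hη0 : 0 < η := lt_min hδ (by norm_num)
  have hη1 : η ≤ 1 / 4 := min_le_right _ _
  have hηδ : η ≤ δ := min_le_left _ _
  -- a generic centre near c
  have hnh : (Set.Ioo (c.1 - η / 4) (c.1 + η / 4) ×ˢ Set.Ioo (c.2 - η / 4) (c.2 + η / 4)) ∈ 𝓝 c := by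
    apply prod_mem_nhds <;> apply Ioo_mem_nhds <;> linarith
  obtain ⟨c', hc'U, hgen⟩ := mem_closure_iff_nhds.mp (dense_generic c) _ hnh
  obtain ⟨⟨h1, h2⟩, ⟨h3, h4⟩⟩ := hc'U
  have hr0 : 0 < ρ - η / 2 := by linarith
  have hsub : inside c' (ρ - η / 2) ⊆ inside c ρ := by
    intro p hp
    have hp' : ((p.1 : ℝ) - c'.1) ^ 2 + ((p.2 : ℝ) - c'.2) ^ 2 < (ρ - η / 2) ^ 2 := hp
    show ((p.1 : ℝ) - c.1) ^ 2 + ((p.2 : ℝ) - c.2) ^ 2 < ρ ^ 2
    set x := (p.1 : ℝ) - c'.1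
    set y := (p.2 : ℝ) - c'.2
    set a := c'.1 - c.1
    set b := c'.2 - c.2
    have ea : (p.1 : ℝ) - c.1 = x + a := by simp only [x, a]; ring
    have eb : (p.2 : ℝ) - c.2 = y + b := by simp only [y, b]; ring
    have ha : |a| < η / 4 := by rw [abs_lt]; simp only [a]; constructor <;> linarith
    have hb : |b| < η / 4 := by rw [abs_lt]; simp only [b]; constructor <;> linarith
    have hx : |x| < ρ - η / 2 := by
      apply abs_lt_of_sq_lt_sq _ hr0.le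
      nlinarith [sq_nonneg y]
    have hy : |y| < ρ - η / 2 := by
      apply abs_lt_of_sq_lt_sq _ hr0.le
      nlinarith [sq_nonneg x]
    have hxa : x * a ≤ (ρ - η / 2) * (η / 4) := by
      calc x * a ≤ |x * a| := le_abs_self _
        _ = |x| * |a| := abs_mul _ _
        _ ≤ _ := mul_le_mul hx.le ha.le (abs_nonneg _) hr0.le
    have hyb : y * b ≤ (ρ - η / 2) * (η / 4) := by
      calc y * b ≤ |y * b| := le_abs_self _
        _ = |y| * |b| := abs_mul _ _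
        _ ≤ _ := mul_le_mul hy.le hb.le (abs_nonneg _) hr0.le
    have ha2 : a ^ 2 ≤ (η / 4) ^ 2 := by
      rw [← sq_abs]; exact pow_le_pow_left₀ (abs_nonneg _) ha.le 2
    have hb2 : b ^ 2 ≤ (η / 4) ^ 2 := by
      rw [← sq_abs]; exact pow_le_pow_left₀ (abs_nonneg _) hb.le 2
    rw [ea, eb]
    nlinarith
  have hN : (inside c' (ρ - η / 2)).ncard ≤ n :=
    (Set.ncard_le_ncard hsub (inside_finite _ _)).trans hc
  set S : Set ℝ := {r | 0 < r ∧ (inside c' r).ncard ≤ n} with hS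
  have hmem : ρ - η / 2 ∈ S := ⟨hr0, hN⟩
  have hbdd : BddAbove S := ⟨ρ, fun r hr => hmax c' r hr.1 hr.2⟩
  set r' := sSup S with hr'
  have hge : ρ - η / 2 ≤ r' := le_csSup hbdd hmem
  have hr'0 : 0 < r' := by linarith
  have hle : (inside c' r').ncard ≤ n := by
    by_contra hcon
    rw [not_le] at hcon
    have hev := lsc c' r'
    have hev2 : ∀ᶠ r in 𝓝 r', (inside c' r').ncard ≤ (inside c' r).ncard := by
      have : Tendsto (fun r : ℝ => (r, c')) (𝓝 r') (𝓝 (r', c')) :=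
        (continuous_id.prodMk continuous_const).tendsto _
      exact this.eventually hev
    obtain ⟨ε, hε, hball⟩ := Metric.eventually_nhds_iff.mp hev2
    obtain ⟨r, hrS, hr⟩ := exists_lt_of_lt_csSup ⟨_, hmem⟩ (show r' - ε < r' by linarith)
    have hrle : r ≤ r' := le_csSup hbdd hrS
    have h5 := hball (y := r) (by rw [Real.dist_eq, abs_lt]; constructor <;> linarith)
    exact absurd hrS.2 (by omega)
  have hone : (onCircle c' r').ncard ≤ 1 := by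
    rw [Set.ncard_le_one (onCircle_finite c' hr'0)]
    intro p hp q hq
    by_contra hpq
    have hp' : ((p.1 : ℝ) - c'.1) ^ 2 + ((p.2 : ℝ) - c'.2) ^ 2 = r' ^ 2 := hp
    have hq' : ((q.1 : ℝ) - c'.1) ^ 2 + ((q.2 : ℝ) - c'.2) ^ 2 = r' ^ 2 := hq
    exact hgen p q hpq (hp'.trans hq'.symm)
  obtain ⟨s, hs, hs2⟩ := enlarge c' hr'0
  have hgt : n < (inside c' (r' + s)).ncard := by
    by_contra hcon
    have : r' + s ≤ r' := le_csSup hbdd ⟨by linarith, not_lt.mp hcon⟩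
    linarith
  exact ⟨c', r', by linarith, hr'0, by omega⟩

/-- The sup of the radii of the `n`-enclosing circles is the record radius. -/
lemma isLUB_record (n : ℕ) {c : ℝ × ℝ} {ρ : ℝ} (hρ : 1 / 2 ≤ ρ) (hc : (inside c ρ).ncard ≤ n)
    (hmax : ∀ (c' : ℝ × ℝ) (r : ℝ), 0 < r → (inside c' r).ncard ≤ n → r ≤ ρ) :
    IsLUB {r : ℝ | ∃ c : ℝ × ℝ, IsEnclosing n c r} ρ := by
  constructor
  · rintro r ⟨c', hr, hc'⟩
    exact hmax c' r hr hc'.le
  · intro b hb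
    by_contra hcon
    rw [not_le] at hcon
    obtain ⟨c', r, h1, h2, h3⟩ := exact_near n hρ hc hmax (ρ - b) (by linarith)
    have := hb ⟨c', h2, h3⟩
    linarith

/-- Every closed half plane through the centre of the record circle contains at least `n + 1 - a`
of its lattice points. -/
lemma half_ge (n : ℕ) {c : ℝ × ℝ} {ρ : ℝ} (hρ : 1 / 2 ≤ ρ)
    (hmax : ∀ (c' : ℝ × ℝ) (r : ℝ), 0 < r → (inside c' r).ncard ≤ n → r ≤ ρ) (u : ℝ × ℝ) :
    n + 1 ≤ (inside c ρ).ncard + (halfOn c ρ u).ncard := by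
  obtain ⟨c', r', hr, hle⟩ := move c (by linarith : 0 < ρ) u
  by_contra hcon
  have := hmax c' r' (by linarith) (by omega)
  linarith

/-- The half plane with normal `u₀ + δ v` for small `δ`, where `u₀ ⊥ v`. -/
lemma perturb {c : ℝ × ℝ} {r : ℝ} (hr : 0 < r) (e : ℤ × ℤ) (he : e ∈ onCircle c r) (σ τ : ℝ)
    (hσ : σ ≠ 0) :
    ∃ δ : ℝ, 0 < δ ∧ halfOn c r (σ * -((e.2 : ℝ) - c.2) + δ * τ * ((e.1 : ℝ) - c.1),
        σ * ((e.1 : ℝ) - c.1) + δ * τ * ((e.2 : ℝ) - c.2))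
      ⊆ openOn c r (σ * -((e.2 : ℝ) - c.2), σ * ((e.1 : ℝ) - c.1)) ∪
        {p ∈ onCircle c r | (((p.1 : ℝ) - c.1) * ((e.2 : ℝ) - c.2)
          = ((p.2 : ℝ) - c.2) * ((e.1 : ℝ) - c.1)) ∧
          0 ≤ τ * (((p.1 : ℝ) - c.1) * ((e.1 : ℝ) - c.1) + ((p.2 : ℝ) - c.2) * ((e.2 : ℝ) - c.2))} := by
  set X : ℝ := (e.1 : ℝ) - c.1 with hX
  set Y : ℝ := (e.2 : ℝ) - c.2 with hY
  have hXY : X ^ 2 + Y ^ 2 = r ^ 2 := he
  have h1 : ∀ᶠ δ : ℝ in 𝓝[>] 0, ∀ p ∈ onCircle c r,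
      ((p.1 : ℝ) - c.1) * (σ * -Y) + ((p.2 : ℝ) - c.2) * (σ * X) < 0 →
      ((p.1 : ℝ) - c.1) * (σ * -Y + δ * τ * X) + ((p.2 : ℝ) - c.2) * (σ * X + δ * τ * Y) < 0 := by
    rw [(onCircle_finite c hr).eventually_all]
    intro p _
    by_cases hneg : ((p.1 : ℝ) - c.1) * (σ * -Y) + ((p.2 : ℝ) - c.2) * (σ * X) < 0
    · have hcont : ContinuousAt (fun δ : ℝ => ((p.1 : ℝ) - c.1) * (σ * -Y + δ * τ * X)
          + ((p.2 : ℝ) - c.2) * (σ * X + δ * τ * Y)) 0 := by fun_prop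
      have hval : ((p.1 : ℝ) - c.1) * (σ * -Y + 0 * τ * X)
          + ((p.2 : ℝ) - c.2) * (σ * X + 0 * τ * Y) < 0 := by
        simpa using hneg
      have := hcont.eventually_lt (continuousAt_const (y := (0 : ℝ))) hval
      filter_upwards [nhdsWithin_le_nhds this] with δ hδ _
      exact hδ
    · filter_upwards with δ h
      exact absurd h hneg
  obtain ⟨δ, hδ, hδ0⟩ := (h1.and (self_mem_nhdsWithin (a := (0 : ℝ)) (s := Set.Ioi 0))).exists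
  have hδ0' : (0 : ℝ) < δ := hδ0
  refine ⟨δ, hδ0', ?_⟩
  rintro p ⟨hp, hge⟩
  simp only at hge
  rcases lt_trichotomy (((p.1 : ℝ) - c.1) * (σ * -Y) + ((p.2 : ℝ) - c.2) * (σ * X)) 0 with h | h | h
  · exact absurd (hδ p hp h) (not_lt.mpr hge)
  · right
    refine ⟨hp, ?_, ?_⟩
    · have h2 : σ * (((p.2 : ℝ) - c.2) * X - ((p.1 : ℝ) - c.1) * Y) = 0 := by linarith
      rcases mul_eq_zero.mp h2 with h3 | h3
      · exact absurd h3 hσ
      · linarith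
    · have h2 : 0 ≤ δ * (τ * (((p.1 : ℝ) - c.1) * X + ((p.2 : ℝ) - c.2) * Y)) := by nlinarith
      exact nonneg_of_mul_nonneg_right h2 hδ0'
  · left
    exact ⟨hp, h⟩

/-- points of the circle parallel to `e - c` -/
lemma parallel {c : ℝ × ℝ} {r : ℝ} (hr : 0 < r) {e p : ℤ × ℤ} (he : e ∈ onCircle c r)
    (hp : p ∈ onCircle c r)
    (h : (((p.1 : ℝ) - c.1) * ((e.2 : ℝ) - c.2) = ((p.2 : ℝ) - c.2) * ((e.1 : ℝ) - c.1))) :
    p = e ∨ ((p.1 : ℝ) - c.1 = -((e.1 : ℝ) - c.1) ∧ (p.2 : ℝ) - c.2 = -((e.2 : ℝ) - c.2)) := by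
  have he' : ((e.1 : ℝ) - c.1) ^ 2 + ((e.2 : ℝ) - c.2) ^ 2 = r ^ 2 := he
  have hp' : ((p.1 : ℝ) - c.1) ^ 2 + ((p.2 : ℝ) - c.2) ^ 2 = r ^ 2 := hp
  have hr2 : 0 < r ^ 2 := by positivity
  set x := (p.1 : ℝ) - c.1 with hx
  set y := (p.2 : ℝ) - c.2 with hy
  set X := (e.1 : ℝ) - c.1 with hX
  set Y := (e.2 : ℝ) - c.2 with hY
  set t := (x * X + y * Y) / r ^ 2 with ht
  have hxt : x = t * X := by
    rw [ht, div_mul_eq_mul_div, eq_div_iff hr2.ne', ← he']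
    linear_combination Y * h
  have hyt : y = t * Y := by
    rw [ht, div_mul_eq_mul_div, eq_div_iff hr2.ne', ← he']
    linear_combination (-X) * h
  have ht2 : t ^ 2 = 1 := by
    have h1 : t ^ 2 * r ^ 2 = 1 * r ^ 2 := by
      rw [one_mul, ← he', mul_add, ← mul_pow, ← mul_pow, ← hxt, ← hyt, hp', he']
    exact mul_right_cancel₀ hr2.ne' h1
  have ht3 : t = 1 ∨ t = -1 := by
    have h1 : (t - 1) * (t + 1) = 0 := by linear_combination ht2
    rcases mul_eq_zero.mp h1 with h2 | h2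
    · left; linarith
    · right; linarith
  rcases ht3 with h1 | h1
  · left
    rw [h1, one_mul] at hxt hyt
    refine Prod.ext ?_ ?_
    · have : (p.1 : ℝ) = e.1 := by simp only [hx, hX] at hxt; linarith
      exact_mod_cast this
    · have : (p.2 : ℝ) = e.2 := by simp only [hy, hY] at hyt; linarith
      exact_mod_cast this
  · right
    rw [h1] at hxt hyt
    exact ⟨by rw [hxt]; ring, by rw [hyt]; ring⟩

end Pool.Agent.H94.MC
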