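import Mathlib
import Pool.Agent.H94.MC.FiveB

/-!
# Non-MC integers and circles through at least five lattice points, the theorem
-/

namespace Pool.Agent.H94.MC

open Set Filter Topology

theorem five (n : ℕ) (hn : ¬ MC n) : ∃ (c : ℝ × ℝ) (R : ℝ),
    IsLUB {r : ℝ | ∃ c : ℝ × ℝ, IsEnclosing n c r} R ∧ (inside c R).ncard < n ∧
    5 ≤ (onCircle c R).ncard ∧
    ∀ u : ℝ × ℝ, n + 1 ≤ (inside c R).ncard + (halfOn c R u).ncard := by
  obtain ⟨c, ρ, hρ, hc, hmax⟩ := record n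
  have hρ0 : 0 < ρ := by linarith
  have hlub := isLUB_record n hρ hc hmax
  have hhalf := half_ge n (c := c) hρ hmax
  -- `n` is not attained at radius `ρ`
  have hnot : ∀ c' : ℝ × ℝ, (inside c' ρ).ncard ≠ n := by
    intro c' h
    exact hn ⟨ρ, ⟨⟨c', hρ0, h⟩, hlub.1⟩⟩
  have hlt : (inside c ρ).ncard < n := lt_of_le_of_ne hc (hnot c)
  refine ⟨c, ρ, hlub, hlt, ?_, hhalf⟩
  by_contra hcon
  have hfin := onCircle_finite c hρ0
  -- a point of the circle
  have hne : (onCircle c ρ).Nonempty := by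
    rw [Set.nonempty_iff_ne_empty]
    intro h0
    have h1 := hhalf (0, 0)
    have h2 : halfOn c ρ (0, 0) = ∅ := by
      rw [Set.eq_empty_iff_forall_notMem]
      intro p hp
      have h3 : p ∈ onCircle c ρ := hp.1
      rw [h0] at h3
      exact h3
    rw [h2, Set.ncard_empty] at h1
    omega
  obtain ⟨e, he⟩ := hne
  set X : ℝ := (e.1 : ℝ) - c.1 with hX
  set Y : ℝ := (e.2 : ℝ) - c.2 with hY
  have hXY : X ^ 2 + Y ^ 2 = ρ ^ 2 := he
  have hρ2 : 0 < ρ ^ 2 := by positivity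
  set T' : Set (ℤ × ℤ) := {p ∈ onCircle c ρ | (p.1 : ℝ) - c.1 = -X ∧ (p.2 : ℝ) - c.2 = -Y} with hT'
  set A : Set (ℤ × ℤ) := openOn c ρ (-Y, X) with hA
  set B : Set (ℤ × ℤ) := openOn c ρ (Y, -X) with hB
  have hAf : A.Finite := hfin.subset (fun p hp => hp.1)
  have hBf : B.Finite := hfin.subset (fun p hp => hp.1)
  have hTf : T'.Finite := hfin.subset (fun p hp => hp.1)
  have hT1 : T'.ncard ≤ 1 := by
    rw [Set.ncard_le_one hTf]
    rintro p ⟨_, h1, h2⟩ q ⟨_, h3, h4⟩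
    refine Prod.ext ?_ ?_
    · have : (p.1 : ℝ) = q.1 := by linarith
      exact_mod_cast this
    · have : (p.2 : ℝ) = q.2 := by linarith
      exact_mod_cast this
  have bound : ∀ σ τ : ℝ, σ ≠ 0 → ∀ O W : Set (ℤ × ℤ), O.Finite → W.Finite →
      openOn c ρ (σ * -Y, σ * X) ⊆ O →
      {p ∈ onCircle c ρ | (((p.1 : ℝ) - c.1) * Y = ((p.2 : ℝ) - c.2) * X) ∧
          0 ≤ τ * (((p.1 : ℝ) - c.1) * X + ((p.2 : ℝ) - c.2) * Y)} ⊆ W →
      n + 1 ≤ (inside c ρ).ncard + (O.ncard + W.ncard) := by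
    intro σ τ hσ O W hO hW h1 h2
    obtain ⟨δ, _, hsub⟩ := perturb hρ0 e he σ τ hσ
    have h3 := hhalf (σ * -Y + δ * τ * X, σ * X + δ * τ * Y)
    have h4 : (halfOn c ρ (σ * -Y + δ * τ * X, σ * X + δ * τ * Y)).ncard ≤ O.ncard + W.ncard :=
      (Set.ncard_le_ncard (hsub.trans (Set.union_subset_union h1 h2)) (hO.union hW)).trans
        (Set.ncard_union_le _ _)
    omega
  have hposW : {p ∈ onCircle c ρ | (((p.1 : ℝ) - c.1) * Y = ((p.2 : ℝ) - c.2) * X) ∧
          0 ≤ (1 : ℝ) * (((p.1 : ℝ) - c.1) * X + ((p.2 : ℝ) - c.2) * Y)} ⊆ {e} := by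
    rintro p ⟨hp, h1, h2⟩
    rcases parallel hρ0 he hp h1 with h3 | ⟨h3, h4⟩
    · exact h3
    · exfalso
      rw [h3, h4] at h2
      nlinarith
  have hnegW : {p ∈ onCircle c ρ | (((p.1 : ℝ) - c.1) * Y = ((p.2 : ℝ) - c.2) * X) ∧
          0 ≤ (-1 : ℝ) * (((p.1 : ℝ) - c.1) * X + ((p.2 : ℝ) - c.2) * Y)} ⊆ T' := by
    rintro p ⟨hp, h1, h2⟩
    rcases parallel hρ0 he hp h1 with h3 | ⟨h3, h4⟩
    · exfalso
      rw [h3] at h2
      nlinarith
    · exact ⟨hp, h3, h4⟩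
  have hA1 : openOn c ρ ((1 : ℝ) * -Y, (1 : ℝ) * X) ⊆ A := by
    rw [one_mul, one_mul]
  have hB1 : openOn c ρ ((-1 : ℝ) * -Y, (-1 : ℝ) * X) ⊆ B := by
    have e1 : (-1 : ℝ) * -Y = Y := by ring
    have e2 : (-1 : ℝ) * X = -X := by ring
    rw [e1, e2]
  have b1 := bound 1 1 one_ne_zero A {e} hAf (Set.finite_singleton e) hA1 hposW
  have b2 := bound 1 (-1) one_ne_zero A T' hAf hTf hA1 hnegW
  have b3 := bound (-1) 1 (by norm_num) B {e} hBf (Set.finite_singleton e) hB1 hposW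
  have b4 := bound (-1) (-1) (by norm_num) B T' hBf hTf hB1 hnegW
  rw [Set.ncard_singleton] at b1 b3
  -- the four sets are disjoint
  have hdAB : Disjoint A B := by
    rw [Set.disjoint_left]
    rintro p ⟨_, h1⟩ ⟨_, h2⟩
    simp only at h1 h2
    nlinarith
  have hdABe : Disjoint (A ∪ B) {e} := by
    rw [Set.disjoint_singleton_right]
    rintro (⟨_, h1⟩ | ⟨_, h1⟩)
    · simp only at h1
      nlinarith
    · simp only at h1
      nlinarith
  have hdABeT : Disjoint (A ∪ B ∪ {e}) T' := by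
    rw [Set.disjoint_left]
    rintro p ((⟨_, h1⟩ | ⟨_, h1⟩) | h1) ⟨_, h2, h3⟩
    · simp only at h1
      rw [h2, h3] at h1
      nlinarith
    · simp only at h1
      rw [h2, h3] at h1
      nlinarith
    · have h4 : p = e := h1
      rw [h4] at h2 h3
      have h5 : X = 0 := by linarith
      have h6 : Y = 0 := by linarith
      rw [h5, h6] at hXY
      nlinarith
  have hsubAll : A ∪ B ∪ {e} ∪ T' ⊆ onCircle c ρ := by
    rintro p (((h | h) | h) | h)
    · exact h.1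
    · exact h.1
    · have h4 : p = e := h
      rw [h4]; exact he
    · exact h.1
  have hcount : A.ncard + B.ncard + 1 + T'.ncard ≤ (onCircle c ρ).ncard := by
    have h1 := Set.ncard_le_ncard hsubAll hfin
    rw [Set.ncard_union_eq hdABeT ((hAf.union hBf).union (Set.finite_singleton e)) hTf,
      Set.ncard_union_eq hdABe (hAf.union hBf) (Set.finite_singleton e),
      Set.ncard_union_eq hdAB hAf hBf, Set.ncard_singleton] at h1
    exact h1
  -- the rectangle case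
  have hA1' : A.ncard = 1 := by omega
  have hn1 : n = (inside c ρ).ncard + 1 := by omega
  have hu : ((-Y, X) : ℝ × ℝ) ≠ 0 := by
    intro h
    have h1 : -Y = 0 := congrArg Prod.fst h
    have h2 : X = 0 := congrArg Prod.snd h
    have h3 : Y = 0 := by linarith
    rw [h2, h3] at hXY
    nlinarith
  obtain ⟨c', hc'⟩ := shift c hρ0 hu
  exact hnot c' (by rw [hc', hn1]; exact congrArg _ hA1')

end Pool.Agent.H94.MC
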